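import Mathlib

/-!
# MP_0e82d3_co: the cost of affine signed permutations of type B
-/

set_option autoImplicit false

open Equiv Finset

namespace Pool.Agent.Results.MP_0e82d3_co.AffineCost

/-- the period `N = 2n + 2`. -/
def NN (n : ℕ) : ℤ := 2 * n + 2

/-- the group generated by `x ↦ -x` and `x ↦ x + N`. -/
def Sym (n : ℕ) : Subgroup (Perm ℤ) :=
  Subgroup.closure {Equiv.neg ℤ, Equiv.addRight (NN n)}

/-- affine signed permutations (type C). -/
def IsC (n : ℕ) (w : Perm ℤ) : Prop :=
  (∀ i, w (-i) = -w i) ∧ ∀ i, w (i + NN n) = w i + NN n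

/-- affine signed permutations of type B: `#{i > 0 : w(i) < 0}` is even. -/
def IsB (n : ℕ) (w : Perm ℤ) : Prop :=
  IsC n w ∧ Even (Set.ncard {i : ℤ | 0 < i ∧ w i < 0})

/-- total displacement. -/
noncomputable def tvd (n : ℕ) (w : Perm ℤ) : ℤ := ∑ i ∈ Icc (1 : ℤ) n, |w i - i|

/-- `t` is the bijection `⟨(i j)⟩` which exchanges `σ(i)` and `σ(j)` for every `σ` in the group
generated by `x ↦ -x` and `x ↦ x + N`, and fixes all other integers. -/
def IsSwap (n : ℕ) (i j : ℤ) (t : Perm ℤ) : Prop :=
  (∀ σ ∈ Sym n, t (σ i) = σ j ∧ t (σ j) = σ i) ∧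
    ∀ x, (∀ σ ∈ Sym n, x ≠ σ i ∧ x ≠ σ j) → t x = x

/-- the transpositions of the group of type B: its elements of the form `⟨(i j)⟩`. -/
def IsRefl (n : ℕ) (t : Perm ℤ) : Prop :=
  IsB n t ∧ ∃ i j, i ≠ j ∧ IsSwap n i j t

/-- cost of a transposition. -/
noncomputable def cost (n : ℕ) (t : Perm ℤ) : ℚ := (tvd n t : ℚ) / 2

/-- `w` maps `±[j]` bijectively onto itself. -/
def Good (w : Perm ℤ) (j : ℤ) : Prop :=
  w '' {x | x ≠ 0 ∧ |x| ≤ j} = {x | x ≠ 0 ∧ |x| ≤ j}

/-- moreover the restriction is even-signed. -/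
def VeryGood (w : Perm ℤ) (j : ℤ) : Prop :=
  Good w j ∧ Even (Set.ncard {i : ℤ | 1 ≤ i ∧ i ≤ j ∧ w i < 0})

/-- block count of type C. -/
noncomputable def blC (n : ℕ) (w : Perm ℤ) : ℕ :=
  1 + Set.ncard {j : ℤ | 1 ≤ j ∧ j ≤ n - 1 ∧ Good w j}

/-- block count of type B. -/
noncomputable def blB (n : ℕ) (w : Perm ℤ) : ℕ :=
  1 + Set.ncard {j : ℤ | 1 ≤ j ∧ j ≤ n - 1 ∧ VeryGood w j}

/-- the costs of the factorizations of `w` into transpositions. -/
def costs (n : ℕ) (w : Perm ℤ) : Set ℚ :=
  {c | ∃ l : List (Perm ℤ), (∀ t ∈ l, IsRefl n t) ∧ l.prod = w ∧ c = (l.map (cost n)).sum}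

/-! ### Basic facts -/

theorem NN_eq (n : ℕ) : NN n = 2 * n + 2 := rfl

theorem NN_pos (n : ℕ) : 0 < NN n := by rw [NN_eq]; positivity

theorem mul_small {n : ℕ} {m : ℤ} (h1 : -NN n < m * NN n) (h2 : m * NN n < NN n) : m = 0 := by
  have h := NN_pos n
  by_contra hm
  rcases lt_or_gt_of_ne hm with h3 | h3
  · have : m * NN n ≤ (-1) * NN n := mul_le_mul_of_nonneg_right (by omega) h.le
    omega
  · have : 1 * NN n ≤ m * NN n := mul_le_mul_of_nonneg_right (by omega) h.le
    omega

theorem sym_form {n : ℕ} {σ : Perm ℤ} (h : σ ∈ Sym n) :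
    ∃ k : ℤ, (∀ x, σ x = x + k * NN n) ∨ ∀ x, σ x = -x + k * NN n := by
  unfold Sym at h
  induction h using Subgroup.closure_induction with
  | mem x hx =>
    rcases hx with rfl | hx
    · exact ⟨0, Or.inr fun x => by simp⟩
    · rw [Set.mem_singleton_iff] at hx
      subst hx
      exact ⟨1, Or.inl fun x => by simp⟩
  | one => exact ⟨0, Or.inl fun x => by simp⟩
  | mul x y _ _ hx hy =>
    obtain ⟨k, hk⟩ := hx
    obtain ⟨l, hl⟩ := hy
    rcases hk with hk | hk <;> rcases hl with hl | hl
    · exact ⟨l + k, Or.inl fun z => by rw [Perm.mul_apply, hl, hk]; ring⟩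
    · exact ⟨l + k, Or.inr fun z => by rw [Perm.mul_apply, hl, hk]; ring⟩
    · exact ⟨k - l, Or.inr fun z => by rw [Perm.mul_apply, hl, hk]; ring⟩
    · exact ⟨k - l, Or.inl fun z => by rw [Perm.mul_apply, hl, hk]; ring⟩
  | inv x _ hx =>
    obtain ⟨k, hk⟩ := hx
    rcases hk with hk | hk
    · refine ⟨-k, Or.inl fun z => ?_⟩
      rw [Perm.inv_eq_iff_eq, hk]
      ring
    · refine ⟨k, Or.inr fun z => ?_⟩
      rw [Perm.inv_eq_iff_eq, hk]
      ring

theorem sym_pos (n : ℕ) (k : ℤ) : (Equiv.addRight (k * NN n) : Perm ℤ) ∈ Sym n := by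
  have h1 : (Equiv.addRight (NN n) : Perm ℤ) ∈ Sym n := Subgroup.subset_closure (by simp)
  induction k using Int.induction_on with
  | zero =>
    have : (Equiv.addRight (0 * NN n) : Perm ℤ) = 1 := by
      ext x
      simp
    rw [this]
    exact Subgroup.one_mem _
  | succ k ih =>
    have : (Equiv.addRight (((k : ℤ) + 1) * NN n) : Perm ℤ) =
        Equiv.addRight ((k : ℤ) * NN n) * Equiv.addRight (NN n) := by
      ext x
      simp only [Perm.mul_apply, Equiv.coe_addRight]
      ring
    rw [this]
    exact Subgroup.mul_mem _ ih h1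
  | pred k ih =>
    have : (Equiv.addRight ((-(k : ℤ) - 1) * NN n) : Perm ℤ) =
        Equiv.addRight (-(k : ℤ) * NN n) * (Equiv.addRight (NN n))⁻¹ := by
      rw [eq_mul_inv_iff_mul_eq]
      ext x
      simp only [Perm.mul_apply, Equiv.coe_addRight]
      ring
    rw [this]
    exact Subgroup.mul_mem _ ih (Subgroup.inv_mem _ h1)

theorem sym_neg (n : ℕ) (k : ℤ) :
    (Equiv.addRight (k * NN n) * Equiv.neg ℤ : Perm ℤ) ∈ Sym n :=
  Subgroup.mul_mem _ (sym_pos n k) (Subgroup.subset_closure (by simp))

/-- the explicit form of a transposition. -/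
theorem isSwap_iff {n : ℕ} {i j : ℤ} {t : Perm ℤ} : IsSwap n i j t ↔
    (∀ k : ℤ, t (i + k * NN n) = j + k * NN n ∧ t (j + k * NN n) = i + k * NN n ∧
      t (-i + k * NN n) = -j + k * NN n ∧ t (-j + k * NN n) = -i + k * NN n) ∧
    ∀ x, (∀ k : ℤ, x ≠ i + k * NN n ∧ x ≠ j + k * NN n ∧ x ≠ -i + k * NN n ∧
      x ≠ -j + k * NN n) → t x = x := by
  constructor
  · rintro ⟨h1, h2⟩
    constructor
    · intro k
      obtain ⟨a1, a2⟩ := h1 _ (sym_pos n k)
      obtain ⟨a3, a4⟩ := h1 _ (sym_neg n k)
      exact ⟨a1, a2, a3, a4⟩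
    · intro x hx
      apply h2
      intro σ hσ
      obtain ⟨k, hk⟩ := sym_form hσ
      obtain ⟨b1, b2, b3, b4⟩ := hx k
      rcases hk with hk | hk
      · rw [hk, hk]; exact ⟨b1, b2⟩
      · rw [hk, hk]; exact ⟨b3, b4⟩
  · rintro ⟨h1, h2⟩
    constructor
    · intro σ hσ
      obtain ⟨k, hk⟩ := sym_form hσ
      obtain ⟨b1, b2, b3, b4⟩ := h1 k
      rcases hk with hk | hk
      · rw [hk, hk]; exact ⟨b1, b2⟩
      · rw [hk, hk]; exact ⟨b3, b4⟩
    · intro x hx
      apply h2
      intro k
      obtain ⟨a1, a2⟩ := hx _ (sym_pos n k)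
      obtain ⟨a3, a4⟩ := hx _ (sym_neg n k)
      exact ⟨a1, a2, a3, a4⟩

section basic

variable {n : ℕ} {w : Perm ℤ}

theorem C_add (hw : IsC n w) (x k : ℤ) : w (x + k * NN n) = w x + k * NN n := by
  induction k using Int.induction_on with
  | zero => simp
  | succ k ih =>
    have : x + ((k : ℤ) + 1) * NN n = (x + k * NN n) + NN n := by ring
    rw [this, hw.2, ih]
    ring
  | pred k ih =>
    have h := hw.2 (x + (-(k : ℤ) - 1) * NN n)
    have : x + (-(k : ℤ) - 1) * NN n + NN n = x + -(k : ℤ) * NN n := by ring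
    rw [this, ih] at h
    linarith

theorem C_sub (hw : IsC n w) (x k : ℤ) : w (x - k * NN n) = w x - k * NN n := by
  have := C_add hw x (-k)
  have e : x + -k * NN n = x - k * NN n := by ring
  rw [e] at this
  rw [this]
  ring

theorem C_neg_add (hw : IsC n w) (x k : ℤ) : w (-x + k * NN n) = -w x + k * NN n := by
  rw [C_add hw, hw.1]

theorem C_zero (hw : IsC n w) : w 0 = 0 := by
  have := hw.1 0
  simp only [neg_zero] at this
  omega

theorem C_mid (hw : IsC n w) : w (n + 1) = n + 1 := by
  have h := hw.2 (-(n + 1))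
  rw [hw.1] at h
  have e : -((n : ℤ) + 1) + NN n = n + 1 := by rw [NN_eq]; ring
  rw [e] at h
  rw [NN_eq] at h
  omega

theorem C_mult (hw : IsC n w) (k : ℤ) : w (k * (n + 1)) = k * (n + 1) := by
  rcases Int.even_or_odd' k with ⟨m, rfl | rfl⟩
  · have e : (2 * m * (n + 1) : ℤ) = 0 + m * NN n := by rw [NN_eq]; ring
    rw [e, C_add hw, C_zero hw]
  · have e : ((2 * m + 1) * (n + 1) : ℤ) = (n + 1) + m * NN n := by rw [NN_eq]; ring
    rw [e, C_add hw, C_mid hw]

theorem C_mul {w' : Perm ℤ} (hw : IsC n w) (hw' : IsC n w') : IsC n (w * w') := by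
  constructor
  · intro i
    rw [Perm.mul_apply, Perm.mul_apply, hw'.1, hw.1]
  · intro i
    rw [Perm.mul_apply, Perm.mul_apply, hw'.2, hw.2]

theorem C_one : IsC n 1 := ⟨fun _ => rfl, fun _ => rfl⟩

/-- representatives. -/
theorem rep (n : ℕ) (x : ℤ) : (∃ k : ℤ, x = k * (n + 1)) ∨
    ∃ p k : ℤ, 1 ≤ p ∧ p ≤ n ∧ (x = p + k * NN n ∨ x = -p + k * NN n) := by
  have h := NN_pos n
  have h1 := Int.emod_nonneg x h.ne'
  have h2 := Int.emod_lt_of_pos x h
  have h3 := Int.emod_add_mul_ediv x (NN n)
  set r := x % NN n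
  set k := x / NN n
  have hN := NN_eq n
  by_cases c1 : r = 0
  · left
    refine ⟨2 * k, ?_⟩
    rw [← h3, c1, hN]
    ring
  · by_cases c2 : r = n + 1
    · left
      refine ⟨2 * k + 1, ?_⟩
      rw [← h3, c2, hN]
      ring
    · right
      rcases lt_or_gt_of_ne c2 with c3 | c3
      · exact ⟨r, k, by omega, by omega, Or.inl (by rw [← h3]; ring)⟩
      · exact ⟨NN n - r, k + 1, by omega, by omega, Or.inr (by rw [← h3]; ring)⟩

/-- uniqueness of representatives. -/
theorem rep_unique {p q k l : ℤ} (hp : 1 ≤ p ∧ p ≤ n) (hq : 1 ≤ q ∧ q ≤ n)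
    (h : p + k * NN n = q + l * NN n ∨ p + k * NN n = -q + l * NN n ∨
      -p + k * NN n = q + l * NN n ∨ -p + k * NN n = -q + l * NN n) : p = q ∧ k = l := by
  have hN := NN_eq n
  rcases h with h | h | h | h
  · have : (l - k) * NN n = p - q := by linear_combination -h
    have := mul_small (n := n) (m := l - k) (by omega) (by omega)
    have : l = k := by omega
    subst this
    exact ⟨by linarith, rfl⟩
  · have : (l - k) * NN n = p + q := by linear_combination -h
    have := mul_small (n := n) (m := l - k) (by omega) (by omega)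
    have : l = k := by omega
    subst this
    omega
  · have : (l - k) * NN n = -p - q := by linear_combination -h
    have := mul_small (n := n) (m := l - k) (by omega) (by omega)
    have : l = k := by omega
    subst this
    omega
  · have : (l - k) * NN n = q - p := by linear_combination -h
    have := mul_small (n := n) (m := l - k) (by omega) (by omega)
    have : l = k := by omega
    subst this
    exact ⟨by linarith, rfl⟩

/-- floor of a negative. -/
theorem fl_neg {x : ℤ} (h : ∀ k : ℤ, x ≠ k * NN n) : (-x) / NN n = -1 - x / NN n := by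
  have hN := NN_pos n
  have h1 := Int.emod_nonneg x hN.ne'
  have h2 := Int.emod_lt_of_pos x hN
  have h3 := Int.emod_add_mul_ediv x (NN n)
  have h4 : x % NN n ≠ 0 := by
    intro h4
    apply h (x / NN n)
    rw [h4] at h3
    linarith
  have h5 : 0 < x % NN n := lt_of_le_of_ne h1 (Ne.symm h4)
  rw [Int.ediv_eq_iff_of_pos hN]
  constructor
  · linarith
  · linarith

theorem fl_add (x k : ℤ) : (x + k * NN n) / NN n = x / NN n + k :=
  Int.add_mul_ediv_right _ _ (NN_pos n).ne'

theorem w_ne (hw : IsC n w) {m : ℤ} (hm : 1 ≤ m ∧ m ≤ n) (k : ℤ) : w m ≠ k * NN n := by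
  intro h
  have h1 : w (k * NN n) = k * NN n := by
    have := C_add hw 0 k
    rwa [zero_add, C_zero hw, zero_add] at this
  have h2 := w.injective (h.trans h1.symm)
  have hN := NN_eq n
  have h3 := mul_small (n := n) (m := k) (by omega) (by omega)
  rw [h3] at h2
  omega

theorem fl_zero {x : ℤ} (h1 : 0 ≤ x) (h2 : x < NN n) : x / NN n = 0 :=
  Int.ediv_eq_zero_of_lt h1 h2

theorem fl_m1 {x : ℤ} (h1 : -NN n ≤ x) (h2 : x < 0) : x / NN n = -1 := by
  rw [Int.ediv_eq_iff_of_pos (NN_pos n)]
  constructor <;> linarith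

end basic

/-! ### The parity -/

/-- the sum of the floors over the window `[1, c]`. -/
noncomputable def F (n : ℕ) (w : Perm ℤ) (c : ℤ) : ℤ := ∑ m ∈ Icc (1 : ℤ) c, w m / NN n

section parity

variable {n : ℕ} {w : Perm ℤ}

/-- the negative set of a class. -/
noncomputable def negs (n : ℕ) (w : Perm ℤ) : Finset ℤ :=
  ((Icc (1 : ℤ) n).sigma (fun m => Finset.range (w m / NN n).natAbs)).image
    (fun z => if 0 ≤ w z.1 / NN n then -z.1 + ((z.2 : ℤ) + 1) * NN n else z.1 + (z.2 : ℤ) * NN n)

theorem negs_inj (n : ℕ) (w : Perm ℤ) : Set.InjOn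
    (fun z : (Σ _ : ℤ, ℕ) =>
      if 0 ≤ w z.1 / NN n then -z.1 + ((z.2 : ℤ) + 1) * NN n else z.1 + (z.2 : ℤ) * NN n)
    ((Icc (1 : ℤ) n).sigma (fun m => Finset.range (w m / NN n).natAbs) : Finset (Σ _ : ℤ, ℕ)) := by
  rintro ⟨m, l⟩ h ⟨m', l'⟩ h' he
  simp only [Finset.coe_sigma, Set.mem_sigma_iff, Finset.mem_coe, Finset.mem_Icc,
    Finset.mem_range] at h h'
  dsimp only at he
  split_ifs at he with c1 c2 c2
  · obtain ⟨e1, e2⟩ := rep_unique (n := n) h.1 h'.1 (Or.inr (Or.inr (Or.inr he)))
    subst e1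
    have : l = l' := by omega
    subst this
    rfl
  · obtain ⟨e1, e2⟩ := rep_unique (n := n) h.1 h'.1 (Or.inr (Or.inr (Or.inl he)))
    subst e1
    exact absurd c1 c2
  · obtain ⟨e1, e2⟩ := rep_unique (n := n) h.1 h'.1 (Or.inr (Or.inl he))
    subst e1
    exact absurd c2 c1
  · obtain ⟨e1, e2⟩ := rep_unique (n := n) h.1 h'.1 (Or.inl he)
    subst e1
    have : l = l' := by omega
    subst this
    rfl

theorem negs_eq (hw : IsC n w) : {i : ℤ | 0 < i ∧ w i < 0} = (negs n w : Set ℤ) := by
  have hN := NN_eq n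
  ext x
  unfold negs
  simp only [Set.mem_ofPred_eq, Finset.coe_image, Set.mem_image, Finset.mem_coe,
    Finset.mem_sigma, Finset.mem_Icc, Finset.mem_range, Sigma.exists]
  constructor
  · rintro ⟨h1, h2⟩
    rcases rep n x with ⟨k, rfl⟩ | ⟨p, k, hp1, hp2, rfl | rfl⟩
    · rw [C_mult hw] at h2
      omega
    · rw [C_add hw] at h2
      have e1 := Int.emod_nonneg (w p) (NN_pos n).ne'
      have e2 := Int.emod_add_mul_ediv (w p) (NN n)
      set q := w p / NN n
      -- k ≥ 0
      have hk : 0 ≤ k := by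
        by_contra hk
        have : k * NN n ≤ (-1) * NN n := mul_le_mul_of_nonneg_right (by omega) (NN_pos n).le
        omega
      have hkq : k + q < 0 := by
        by_contra hkq
        have : 0 ≤ (k + q) * NN n := mul_nonneg (by omega) (NN_pos n).le
        nlinarith
      refine ⟨p, k.toNat, ⟨⟨hp1, hp2⟩, by omega⟩, ?_⟩
      rw [if_neg (by omega), Int.toNat_of_nonneg hk]
    · rw [C_neg_add hw] at h2
      have e1 := Int.emod_nonneg (w p) (NN_pos n).ne'
      have e3 := Int.emod_lt_of_pos (w p) (NN_pos n)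
      have e2 := Int.emod_add_mul_ediv (w p) (NN n)
      set q := w p / NN n
      have hk : 1 ≤ k := by
        by_contra hk
        have : k * NN n ≤ 0 * NN n := mul_le_mul_of_nonneg_right (by omega) (NN_pos n).le
        omega
      have hkq : k ≤ q := by
        by_contra hkq
        have : (q + 1) * NN n ≤ k * NN n := mul_le_mul_of_nonneg_right (by omega) (NN_pos n).le
        nlinarith
      refine ⟨p, (k - 1).toNat, ⟨⟨hp1, hp2⟩, by omega⟩, ?_⟩
      rw [if_pos (by omega), Int.toNat_of_nonneg (by omega)]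
      ring
  · rintro ⟨m, l, ⟨⟨h1, h2⟩, h3⟩, h4⟩
    have e1 := Int.emod_nonneg (w m) (NN_pos n).ne'
    have e3 := Int.emod_lt_of_pos (w m) (NN_pos n)
    have e2 := Int.emod_add_mul_ediv (w m) (NN n)
    have e4 : w m % NN n ≠ 0 := by
      intro h
      apply w_ne hw ⟨h1, h2⟩ (w m / NN n)
      rw [h] at e2
      linarith
    have e5 : 0 < w m % NN n := lt_of_le_of_ne e1 (Ne.symm e4)
    split_ifs at h4 with c
    · subst h4
      set q := w m / NN n
      constructor
      · have : 0 * NN n ≤ (l : ℤ) * NN n := mul_le_mul_of_nonneg_right (by omega) (NN_pos n).le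
        nlinarith
      · rw [C_neg_add hw]
        have : ((l : ℤ) + 1) * NN n ≤ q * NN n :=
          mul_le_mul_of_nonneg_right (by omega) (NN_pos n).le
        nlinarith
    · subst h4
      set q := w m / NN n
      constructor
      · have : 0 * NN n ≤ (l : ℤ) * NN n := mul_le_mul_of_nonneg_right (by omega) (NN_pos n).le
        nlinarith
      · rw [C_add hw]
        have : ((l : ℤ) + q) * NN n ≤ (-1) * NN n :=
          mul_le_mul_of_nonneg_right (by omega) (NN_pos n).le
        nlinarith

theorem even_iff (hw : IsC n w) :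
    Even (Set.ncard {i : ℤ | 0 < i ∧ w i < 0}) ↔ Even (F n w n) := by
  rw [negs_eq hw, Set.ncard_coe_finset]
  unfold negs F
  rw [Finset.card_image_of_injOn (negs_inj n w), Finset.card_sigma]
  simp only [Finset.card_range]
  rw [← Int.even_coe_nat]
  push_cast
  have : ∀ s : Finset ℤ, (Even (∑ x ∈ s, |w x / NN n|) ↔ Even (∑ m ∈ s, w m / NN n)) := by
    intro s
    induction s using Finset.induction_on with
    | empty => simp
    | insert a s ha ih =>
      rw [Finset.sum_insert ha, Finset.sum_insert ha, Int.even_add, Int.even_add, ih, even_abs]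
  exact this _

theorem isB_iff : IsB n w ↔ IsC n w ∧ Even (F n w n) := by
  unfold IsB
  constructor
  · rintro ⟨h1, h2⟩
    exact ⟨h1, (even_iff h1).1 h2⟩
  · rintro ⟨h1, h2⟩
    exact ⟨h1, (even_iff h1).2 h2⟩

end parity

/-! ### Good cuts -/

/-- `w` preserves `±[c]`. -/
def G (w : Perm ℤ) (c : ℤ) : Prop := ∀ m, 1 ≤ m → m ≤ c → |w m| ≤ c

section good

variable {n : ℕ} {w : Perm ℤ}

theorem C_abs (hw : IsC n w) (x : ℤ) : |w (|x|)| = |w x| := by
  rcases abs_cases x with ⟨h, -⟩ | ⟨h, -⟩
  · rw [h]
  · rw [h, hw.1, abs_neg]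

theorem abs_inj (hw : IsC n w) {m m' : ℤ} (h1 : 1 ≤ m) (h2 : 1 ≤ m') (h : |w m| = |w m'|) :
    m = m' := by
  rcases abs_eq_abs.1 h with h | h
  · exact w.injective h
  · rw [← hw.1] at h
    have := w.injective h
    omega

theorem w_ne_zero (hw : IsC n w) {m : ℤ} (h : m ≠ 0) : w m ≠ 0 := by
  intro h1
  apply h
  apply w.injective
  rw [h1, C_zero hw]

theorem inj_surj (hw : IsC n w) {s t : Finset ℤ} (hst : t.card ≤ s.card)
    (h : ∀ m ∈ s, |w m| ∈ t) (hs : ∀ m ∈ s, 1 ≤ m) {v : ℤ} (hv : v ∈ t) :
    ∃ m ∈ s, |w m| = v := by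
  have h1 : s.image (fun m => |w m|) = t := by
    apply Finset.eq_of_subset_of_card_le
    · intro v hv
      obtain ⟨m, hm, rfl⟩ := Finset.mem_image.1 hv
      exact h m hm
    · rw [Finset.card_image_of_injOn]
      · exact hst
      · intro m hm m' hm' he
        exact abs_inj hw (hs m hm) (hs m' hm') he
  rw [← h1] at hv
  exact Finset.mem_image.1 hv

theorem G_surj (hw : IsC n w) {c : ℤ} (h : G w c) {v : ℤ} (h1 : 1 ≤ v) (h2 : v ≤ c) :
    ∃ m, 1 ≤ m ∧ m ≤ c ∧ |w m| = v := by
  obtain ⟨m, hm, he⟩ := inj_surj hw (s := Icc 1 c) (t := Icc 1 c) le_rfl (v := v) (by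
    intro m hm
    rw [Finset.mem_Icc] at hm ⊢
    have h3 := w_ne_zero hw (m := m) (by omega)
    have h4 := abs_pos.2 h3
    have := h m hm.1 hm.2
    omega) (by
    intro m hm
    rw [Finset.mem_Icc] at hm
    exact hm.1) (by rw [Finset.mem_Icc]; omega)
  rw [Finset.mem_Icc] at hm
  exact ⟨m, hm.1, hm.2, he⟩

theorem G_ext (hw : IsC n w) {c x k : ℤ} (h : G w c) (hx : |x - k * NN n| ≤ c) :
    |w x - k * NN n| ≤ c := by
  have h1 : w x - k * NN n = w (x - k * NN n) := (C_sub hw x k).symm
  rw [h1]
  rcases eq_or_ne (x - k * NN n) 0 with h2 | h2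
  · rw [h2, C_zero hw]
    rw [h2] at hx
    exact hx
  · rw [← C_abs hw]
    apply h
    · have := abs_pos.2 h2
      omega
    · exact hx

theorem good_iff (hw : IsC n w) (c : ℤ) : Good w c ↔ G w c := by
  constructor
  · intro h m h1 h2
    have h3 : w m ∈ w '' {x | x ≠ 0 ∧ |x| ≤ c} :=
      ⟨m, ⟨by omega, by rw [abs_of_pos (by omega)]; exact h2⟩, rfl⟩
    unfold Good at h
    rw [h] at h3
    exact h3.2
  · intro h
    unfold Good
    ext y
    constructor
    · rintro ⟨x, ⟨h1, h2⟩, rfl⟩
      refine ⟨w_ne_zero hw h1, ?_⟩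
      have := G_ext hw (x := x) (k := 0) h (by simpa using h2)
      simpa using this
    · rintro ⟨h1, h2⟩
      have h3 := abs_pos.2 h1
      obtain ⟨m, h4, h5, h6⟩ := G_surj hw h (v := |y|) (by omega) h2
      rcases abs_eq_abs.1 h6 with h7 | h7
      · exact ⟨m, ⟨by omega, by rw [abs_of_pos (by omega)]; exact h5⟩, h7⟩
      · refine ⟨-m, ⟨by omega, by rw [abs_neg, abs_of_pos (by omega)]; exact h5⟩, ?_⟩
        rw [hw.1, h7, neg_neg]

theorem veryGood_iff (hw : IsC n w) {c : ℤ} (hc : c ≤ n) :
    VeryGood w c ↔ G w c ∧ Even (F n w c) := by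
  unfold VeryGood
  rw [good_iff hw]
  apply and_congr_right
  intro h
  have e : {i : ℤ | 1 ≤ i ∧ i ≤ c ∧ w i < 0} =
      (((Icc (1 : ℤ) c).filter (fun i => w i < 0) : Finset ℤ) : Set ℤ) := by
    ext i
    simp only [Set.mem_ofPred_eq, Finset.coe_filter, Finset.mem_Icc, and_assoc]
  rw [e, Set.ncard_coe_finset]
  have h2 : F n w c = -((Icc (1 : ℤ) c).filter (fun i => w i < 0)).card := by
    unfold F
    rw [Finset.card_filter]
    push_cast
    rw [← Finset.sum_neg_distrib]
    apply Finset.sum_congr rfl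
    intro m hm
    rw [Finset.mem_Icc] at hm
    have h3 := abs_le.1 (h m hm.1 hm.2)
    have hN := NN_eq n
    split_ifs with h4
    · rw [fl_m1 (by omega) h4]
    · rw [fl_zero (by omega) (by omega)]
      rfl
  rw [h2, even_neg, Int.even_coe_nat]

open Classical in
/-- the bad cuts. -/
noncomputable def Bad (n : ℕ) (w : Perm ℤ) : Finset ℤ :=
  (Icc (1 : ℤ) (n - 1)).filter (fun c => G w c ∧ Odd (F n w c))

theorem mem_Bad {c : ℤ} : c ∈ Bad n w ↔ (1 ≤ c ∧ c ≤ n - 1) ∧ G w c ∧ Odd (F n w c) := by
  classical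
  unfold Bad
  rw [Finset.mem_filter, Finset.mem_Icc]

theorem bl_eq (hw : IsC n w) : (blC n w : ℤ) - blB n w = (Bad n w).card := by
  classical
  have e1 : {j : ℤ | 1 ≤ j ∧ j ≤ n - 1 ∧ Good w j} =
      (((Icc (1 : ℤ) (n - 1)).filter (fun c => G w c) : Finset ℤ) : Set ℤ) := by
    ext i
    simp only [Set.mem_ofPred_eq, Finset.coe_filter, Finset.mem_Icc, and_assoc, good_iff hw]
  have e2 : {j : ℤ | 1 ≤ j ∧ j ≤ n - 1 ∧ VeryGood w j} =
      (((Icc (1 : ℤ) (n - 1)).filter (fun c => G w c ∧ Even (F n w c)) : Finset ℤ) : Set ℤ) := by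
    ext i
    simp only [Set.mem_ofPred_eq, Finset.coe_filter, Finset.mem_Icc, and_assoc]
    constructor
    · rintro ⟨h1, h2, h3⟩
      rw [veryGood_iff hw (by omega)] at h3
      exact ⟨h1, h2, h3⟩
    · rintro ⟨h1, h2, h3⟩
      rw [← veryGood_iff hw (by omega)] at h3
      exact ⟨h1, h2, h3⟩
  unfold blC blB
  rw [e1, e2, Set.ncard_coe_finset, Set.ncard_coe_finset]
  have h1 : (Icc (1 : ℤ) (n - 1)).filter (fun c => G w c) =
      (Icc (1 : ℤ) (n - 1)).filter (fun c => G w c ∧ Even (F n w c)) ∪ Bad n w := by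
    ext c
    rw [Finset.mem_union, Finset.mem_filter, Finset.mem_filter, mem_Bad, Finset.mem_Icc]
    rcases Int.even_or_odd (F n w c) with h | h
    · have h' : ¬ Odd (F n w c) := Int.not_odd_iff_even.2 h
      tauto
    · have h' : ¬ Even (F n w c) := Int.not_even_iff_odd.2 h
      tauto
  have h2 : Disjoint ((Icc (1 : ℤ) (n - 1)).filter (fun c => G w c ∧ Even (F n w c)))
      (Bad n w) := by
    rw [Finset.disjoint_left]
    intro c h1 h2
    rw [Finset.mem_filter] at h1
    rw [mem_Bad] at h2
    exact (Int.not_even_iff_odd.2 h2.2.2) h1.2.2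
  rw [h1, Finset.card_union_of_disjoint h2]
  push_cast
  ring

end good

/-! ### The lower bound -/

section lower

variable {n : ℕ} {w t : Perm ℤ}

/-- Everything we need to know about a transposition. -/
structure Data (n : ℕ) (t : Perm ℤ) (i j p q a b : ℤ) : Prop where
  hC : IsC n t
  lt : i < j
  hp : 1 ≤ p ∧ p ≤ n
  hq : 1 ≤ q ∧ q ≤ n
  hi : i = p + a * NN n ∨ i = -p + a * NN n
  hj : j = q + b * NN n ∨ j = -q + b * NN n
  ti : t i = j
  tj : t j = i
  fix : ∀ x, (∀ k : ℤ, x ≠ i + k * NN n ∧ x ≠ j + k * NN n ∧ x ≠ -i + k * NN n ∧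
      x ≠ -j + k * NN n) → t x = x

theorem exists_data (ht : IsRefl n t) : ∃ i j p q a b, Data n t i j p q a b := by
  obtain ⟨⟨hC, -⟩, i, j, hij, hs⟩ := ht
  rw [isSwap_iff] at hs
  obtain ⟨h1, h2⟩ := hs
  have ti : t i = j := by have := (h1 0).1; simpa using this
  have tj : t j = i := by have := (h1 0).2.1; simpa using this
  rcases rep n i with ⟨k, hk⟩ | ⟨p, a, hp1, hp2, hi⟩
  · exfalso
    have := C_mult hC k
    rw [← hk, ti] at this
    exact hij this.symm
  · rcases rep n j with ⟨k, hk⟩ | ⟨q, b, hq1, hq2, hj⟩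
    · exfalso
      have := C_mult hC k
      rw [← hk, tj] at this
      exact hij this
    · rcases lt_or_gt_of_ne hij with h | h
      · exact ⟨i, j, p, q, a, b, hC, h, ⟨hp1, hp2⟩, ⟨hq1, hq2⟩, hi, hj, ti, tj, h2⟩
      · refine ⟨j, i, q, p, b, a, hC, h, ⟨hq1, hq2⟩, ⟨hp1, hp2⟩, hj, hi, tj, ti, ?_⟩
        intro x hx
        apply h2
        intro k
        obtain ⟨e1, e2, e3, e4⟩ := hx k
        exact ⟨e2, e1, e4, e3⟩

variable {i j p q a b : ℤ}

theorem Data.fixw (D : Data n t i j p q a b) {m : ℤ} (hm : 1 ≤ m ∧ m ≤ n) (h1 : m ≠ p)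
    (h2 : m ≠ q) : t m = m := by
  apply D.fix
  intro k
  have hm0 : m = m + 0 * NN n := by ring
  refine ⟨?_, ?_, ?_, ?_⟩
  · intro h
    apply h1
    rcases D.hi with hi | hi
    · exact (rep_unique (n := n) (k := 0) (l := a + k) hm D.hp
        (Or.inl (by rw [← hm0, h, hi]; ring))).1
    · exact (rep_unique (n := n) (k := 0) (l := a + k) hm D.hp
        (Or.inr (Or.inl (by rw [← hm0, h, hi]; ring)))).1
  · intro h
    apply h2
    rcases D.hj with hi | hi
    · exact (rep_unique (n := n) (k := 0) (l := b + k) hm D.hq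
        (Or.inl (by rw [← hm0, h, hi]; ring))).1
    · exact (rep_unique (n := n) (k := 0) (l := b + k) hm D.hq
        (Or.inr (Or.inl (by rw [← hm0, h, hi]; ring)))).1
  · intro h
    apply h1
    rcases D.hi with hi | hi
    · exact (rep_unique (n := n) (k := 0) (l := k - a) hm D.hp
        (Or.inr (Or.inl (by rw [← hm0, h, hi]; ring)))).1
    · exact (rep_unique (n := n) (k := 0) (l := k - a) hm D.hp
        (Or.inl (by rw [← hm0, h, hi]; ring))).1
  · intro h
    apply h2
    rcases D.hj with hi | hi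
    · exact (rep_unique (n := n) (k := 0) (l := k - b) hm D.hq
        (Or.inr (Or.inl (by rw [← hm0, h, hi]; ring)))).1
    · exact (rep_unique (n := n) (k := 0) (l := k - b) hm D.hq
        (Or.inl (by rw [← hm0, h, hi]; ring))).1

theorem absinv (hw : IsC n w) {x p a : ℤ} (h : x = p + a * NN n ∨ x = -p + a * NN n) :
    |w x - x| = |w p - p| := by
  rcases h with rfl | rfl
  · rw [C_add hw]
    congr 1
    ring
  · rw [C_neg_add hw, ← abs_neg]
    congr 1
    ring

theorem sum_two {f : ℤ → ℤ} {s : Finset ℤ} {p q : ℤ} (hpq : p ≠ q) (hp : p ∈ s) (hq : q ∈ s)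
    (h : ∀ m ∈ s, m ≠ p → m ≠ q → f m = 0) : ∑ m ∈ s, f m = f p + f q := by
  apply Finset.sum_eq_add p q hpq
  · intro c hc h1
    exact h c hc h1.1 h1.2
  · intro h1
    exact absurd hp h1
  · intro h1
    exact absurd hq h1

theorem tvd_ne (D : Data n t i j p q a b) (hw : IsC n w) (hpq : p ≠ q) :
    tvd n (w * t) - tvd n w = |w j - i| + |w i - j| - |w i - i| - |w j - j| := by
  unfold tvd
  rw [← Finset.sum_sub_distrib, sum_two hpq (Finset.mem_Icc.2 D.hp) (Finset.mem_Icc.2 D.hq)]
  · have hwt := C_mul hw D.hC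
    have e1 := absinv hwt D.hi
    have e2 := absinv hwt D.hj
    have e3 := absinv hw D.hi
    have e4 := absinv hw D.hj
    rw [Perm.mul_apply, D.ti] at e1
    rw [Perm.mul_apply, D.tj] at e2
    rw [← e1, ← e2, ← e3, ← e4]
    ring
  · intro m hm h1 h2
    rw [Finset.mem_Icc] at hm
    rw [Perm.mul_apply, D.fixw hm h1 h2, sub_self]

theorem tvd_eq (D : Data n t i j p q a b) (hw : IsC n w) (hpq : p = q) :
    tvd n (w * t) - tvd n w = |w j - i| - |w i - i| := by
  unfold tvd
  rw [← Finset.sum_sub_distrib, Finset.sum_eq_single p]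
  · have hwt := C_mul hw D.hC
    have e1 := absinv hwt D.hi
    have e3 := absinv hw D.hi
    rw [Perm.mul_apply, D.ti] at e1
    rw [← e1, ← e3]
  · intro m hm h1
    rw [Finset.mem_Icc] at hm
    rw [Perm.mul_apply, D.fixw hm h1 (by rw [← hpq]; exact h1), sub_self]
  · intro h
    exact absurd (Finset.mem_Icc.2 D.hp) h

theorem tvd_one : tvd n 1 = 0 := by
  unfold tvd
  apply Finset.sum_eq_zero
  intro m _
  simp

theorem tvd_t_ne (D : Data n t i j p q a b) (hpq : p ≠ q) : tvd n t = 2 * (j - i) := by
  have h := tvd_ne D (C_one (n := n)) hpq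
  rw [one_mul, tvd_one] at h
  simp only [Perm.one_apply, sub_self, abs_zero, sub_zero] at h
  rw [h, abs_of_pos (by have := D.lt; omega), abs_of_neg (by have := D.lt; omega)]
  ring

theorem tvd_t_eq (D : Data n t i j p q a b) (hpq : p = q) : tvd n t = j - i := by
  have h := tvd_eq D (C_one (n := n)) hpq
  rw [one_mul, tvd_one] at h
  simp only [Perm.one_apply, sub_self, abs_zero, sub_zero] at h
  rw [h, abs_of_pos (by have := D.lt; omega)]

/-- in the same class, `i + j` is a multiple of `N`. -/
theorem same_class (D : Data n t i j p q a b) (hpq : p = q) : ∃ κ, j = -i + κ * NN n := by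
  have hC := D.hC
  rcases D.hi with hi | hi <;> rcases D.hj with hj | hj
  · exfalso
    have e1 : j = i + (b - a) * NN n := by rw [hi, hj, hpq]; ring
    have e2 : i = j - (b - a) * NN n := by rw [e1]; ring
    have e3 := C_sub hC j (b - a)
    rw [← e2, D.ti, D.tj] at e3
    have e4 : (b - a) * NN n = 0 := by linarith
    have := D.lt
    linarith
  · exact ⟨a + b, by rw [hi, hj, hpq]; ring⟩
  · exact ⟨a + b, by rw [hi, hj, hpq]; ring⟩
  · exfalso
    have e1 : j = i + (b - a) * NN n := by rw [hi, hj, hpq]; ring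
    have e2 : i = j - (b - a) * NN n := by rw [e1]; ring
    have e3 := C_sub hC j (b - a)
    rw [← e2, D.ti, D.tj] at e3
    have e4 : (b - a) * NN n = 0 := by linarith
    have := D.lt
    linarith

/-- the gaps in `[i, j)` which are useless. -/
noncomputable def Z (w : Perm ℤ) (i j : ℤ) : Finset ℤ :=
  (Ico i j).filter (fun g => ¬ (w i ≤ g ∧ g < w j))

theorem mem_Z {g : ℤ} : g ∈ Z w i j ↔ (i ≤ g ∧ g < j) ∧ ¬ (w i ≤ g ∧ g < w j) := by
  unfold Z
  rw [Finset.mem_filter, Finset.mem_Ico]

theorem disp_le (w : Perm ℤ) {i j : ℤ} (hij : i < j) :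
    |w j - i| + |w i - j| - |w i - i| - |w j - j| ≤ 2 * ((j - i) - (Z w i j).card) := by
  have h1 : ((Ico i j).filter (fun g => w i ≤ g ∧ g < w j)).card + (Z w i j).card =
      (Ico i j).card := Finset.card_filter_add_card_filter_not _
  have h2 : (Ico i j).filter (fun g => w i ≤ g ∧ g < w j) = Ico (max i (w i)) (min j (w j)) := by
    ext g
    rw [Finset.mem_filter, Finset.mem_Ico, Finset.mem_Ico]
    omega
  rw [h2, Int.card_Ico, Int.card_Ico] at h1
  rcases abs_cases (w j - i) with ⟨a1, b1⟩ | ⟨a1, b1⟩ <;>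
  rcases abs_cases (w i - j) with ⟨a2, b2⟩ | ⟨a2, b2⟩ <;>
  rcases abs_cases (w i - i) with ⟨a3, b3⟩ | ⟨a3, b3⟩ <;>
  rcases abs_cases (w j - j) with ⟨a4, b4⟩ | ⟨a4, b4⟩ <;>
  rw [a1, a2, a3, a4] <;> omega

/-- gaps attached to a cut. -/
def Att (n : ℕ) (c g : ℤ) : Prop := ∃ k : ℤ, g = k * NN n + c ∨ g = k * NN n - c - 1

theorem att_unique {c c' g : ℤ} (hc : 1 ≤ c ∧ c ≤ n - 1) (hc' : 1 ≤ c' ∧ c' ≤ n - 1)
    (h : Att n c g) (h' : Att n c' g) : c = c' := by
  obtain ⟨k, hk⟩ := h
  obtain ⟨l, hl⟩ := h'
  have hN := NN_eq n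
  rcases hk with hk | hk <;> rcases hl with hl | hl
  · have e : (k - l) * NN n = c' - c := by linear_combination hl - hk
    have := mul_small (n := n) (m := k - l) (by omega) (by omega)
    rw [this] at e
    linarith
  · have e : (k - l) * NN n = -c' - c - 1 := by linear_combination hl - hk
    have := mul_small (n := n) (m := k - l) (by omega) (by omega)
    rw [this] at e
    omega
  · have e : (k - l) * NN n = c' + c + 1 := by linear_combination hl - hk
    have := mul_small (n := n) (m := k - l) (by omega) (by omega)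
    rw [this] at e
    omega
  · have e : (k - l) * NN n = c - c' := by linear_combination hl - hk
    have := mul_small (n := n) (m := k - l) (by omega) (by omega)
    rw [this] at e
    linarith

/-- a newly good cut has an attached useless gap. -/
theorem new_gap (D : Data n t i j p q a b) (hw : IsC n w) {c : ℤ} (hc : 1 ≤ c ∧ c ≤ n - 1)
    (h1 : ¬ G w c) (h2 : G (w * t) c) : ∃ g, g ∈ Z w i j ∧ Att n c g := by
  have hwt := C_mul hw D.hC
  have hij := D.lt
  -- some point of the block is moved out of it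
  have h3 : ∃ m, 1 ≤ m ∧ m ≤ c ∧ c < |t m| := by
    by_contra hcon
    push Not at hcon
    apply h1
    intro m hm1 hm2
    have htt : G t c := hcon
    obtain ⟨m', a1, a2, a3⟩ := G_surj D.hC htt hm1 hm2
    have e1 : |w m| = |w (t m')| := by
      rw [← C_abs hw (t m'), a3]
    rw [e1]
    exact h2 m' a1 a2
  obtain ⟨m, hm1, hm2, hm3⟩ := h3
  have h4 : ∃ k : ℤ, (|i - k * NN n| ≤ c ∧ c < |j - k * NN n|) ∨
      (|j - k * NN n| ≤ c ∧ c < |i - k * NN n|) := by
    by_contra hcon
    push Not at hcon
    have : t m = m := by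
      apply D.fix
      intro k
      refine ⟨?_, ?_, ?_, ?_⟩
      · intro h
        have e1 := (hcon (-k)).1 (by
          have : i - -k * NN n = m := by rw [h]; ring
          rw [this, abs_of_pos (by omega)]
          exact hm2)
        have e2 : t m = j - -k * NN n := by rw [h, C_add D.hC, D.ti]; ring
        rw [← e2] at e1
        omega
      · intro h
        have e1 := (hcon (-k)).2 (by
          have : j - -k * NN n = m := by rw [h]; ring
          rw [this, abs_of_pos (by omega)]
          exact hm2)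
        have e2 : t m = i - -k * NN n := by rw [h, C_add D.hC, D.tj]; ring
        rw [← e2] at e1
        omega
      · intro h
        have e1 := (hcon k).1 (by
          have : i - k * NN n = -m := by rw [h]; ring
          rw [this, abs_neg, abs_of_pos (by omega)]
          exact hm2)
        have e2 : j - k * NN n = -t m := by rw [h, C_neg_add D.hC, D.ti]; ring
        rw [e2, abs_neg] at e1
        omega
      · intro h
        have e1 := (hcon k).2 (by
          have : j - k * NN n = -m := by rw [h]; ring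
          rw [this, abs_neg, abs_of_pos (by omega)]
          exact hm2)
        have e2 : i - k * NN n = -t m := by rw [h, C_neg_add D.hC, D.tj]; ring
        rw [e2, abs_neg] at e1
        omega
    rw [this, abs_of_pos (by omega)] at hm3
    omega
  obtain ⟨k, h5 | h5⟩ := h4
  · obtain ⟨h5, h6⟩ := h5
    have h7 := G_ext hwt h2 h5
    rw [Perm.mul_apply, D.ti] at h7
    rw [abs_le] at h5 h7
    rw [lt_abs] at h6
    refine ⟨k * NN n + c, ?_, k, Or.inl rfl⟩
    rw [mem_Z]
    constructor
    · omega
    · omega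
  · obtain ⟨h5, h6⟩ := h5
    have h7 := G_ext hwt h2 h5
    rw [Perm.mul_apply, D.tj] at h7
    rw [abs_le] at h5 h7
    rw [lt_abs] at h6
    refine ⟨k * NN n - c - 1, ?_, k, Or.inr rfl⟩
    rw [mem_Z]
    constructor
    · omega
    · omega

theorem small_rep {x q k : ℤ} (hx : x ≠ 0) (hxn : |x| ≤ n) (hq : 1 ≤ q ∧ q ≤ n)
    (h : x = q + k * NN n ∨ x = -q + k * NN n) : x = q ∨ x = -q := by
  have hpos := abs_pos.2 hx
  have hr : 1 ≤ |x| ∧ |x| ≤ n := ⟨by omega, hxn⟩
  rcases abs_cases x with ⟨e, -⟩ | ⟨e, -⟩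
  · left
    rcases h with h | h
    · have := (rep_unique (n := n) (k := 0) (l := k) hr hq (Or.inl (by rw [e]; linarith))).1
      rw [e] at this
      exact this
    · have := (rep_unique (n := n) (k := 0) (l := k) hr hq
        (Or.inr (Or.inl (by rw [e]; linarith)))).1
      rw [e] at this
      exact this
  · right
    rcases h with h | h
    · have := (rep_unique (n := n) (k := 0) (l := k) hr hq
        (Or.inr (Or.inr (Or.inl (by rw [e]; linarith))))).1
      rw [e] at this
      linarith
    · have := (rep_unique (n := n) (k := 0) (l := k) hr hq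
        (Or.inr (Or.inr (Or.inr (by rw [e]; linarith))))).1
      rw [e] at this
      linarith

theorem t_ne_zero (D : Data n t i j p q a b) {m : ℤ} (hm : 1 ≤ m) : t m ≠ 0 :=
  w_ne_zero D.hC (by omega)

theorem tp_form (D : Data n t i j p q a b) : (∃ k, t p = q + k * NN n ∨ t p = -q + k * NN n) ∧
    t (t p) = p := by
  rcases D.hi with hi | hi
  · have e1 : p = i - a * NN n := by rw [hi]; ring
    have e2 : t p = j - a * NN n := by
      conv_lhs => rw [e1]
      rw [C_sub D.hC, D.ti]
    constructor
    · refine ⟨b - a, ?_⟩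
      rw [e2]
      rcases D.hj with hj | hj
      · left; rw [hj]; ring
      · right; rw [hj]; ring
    · rw [e2, C_sub D.hC, D.tj, ← e1]
  · have e1 : p = -i + a * NN n := by rw [hi]; ring
    have e2 : t p = -j + a * NN n := by
      conv_lhs => rw [e1]
      rw [C_neg_add D.hC, D.ti]
    constructor
    · refine ⟨a - b, ?_⟩
      rw [e2]
      rcases D.hj with hj | hj
      · right; rw [hj]; ring
      · left; rw [hj]; ring
    · rw [e2, C_neg_add D.hC, D.tj, ← e1]

theorem tq_form (D : Data n t i j p q a b) : ∃ k, t q = p + k * NN n ∨ t q = -p + k * NN n := by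
  rcases D.hj with hj | hj
  · have e1 : q = j - b * NN n := by rw [hj]; ring
    have e2 : t q = i - b * NN n := by
      conv_lhs => rw [e1]
      rw [C_sub D.hC, D.tj]
    refine ⟨a - b, ?_⟩
    rw [e2]
    rcases D.hi with hi | hi
    · left; rw [hi]; ring
    · right; rw [hi]; ring
  · have e1 : q = -j + b * NN n := by rw [hj]; ring
    have e2 : t q = -i + b * NN n := by
      conv_lhs => rw [e1]
      rw [C_neg_add D.hC, D.tj]
    refine ⟨b - a, ?_⟩
    rw [e2]
    rcases D.hi with hi | hi
    · right; rw [hi]; ring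
    · left; rw [hi]; ring

theorem t_ne_self (D : Data n t i j p q a b) : t p ≠ p := by
  intro h
  have hij := D.lt
  have h1 := absinv D.hC D.hi
  rw [h, sub_self, abs_zero, D.ti] at h1
  have := abs_eq_zero.1 h1
  omega

theorem parity_same (D : Data n t i j p q a b) (hF : Even (F n t n)) (hw : IsC n w) {c : ℤ}
    (hc : 1 ≤ c ∧ c ≤ n - 1) (h1 : G w c) (h2 : G (w * t) c) :
    Even (F n (w * t) c - F n w c) := by
  -- t preserves the block
  have ht : ∀ m, 1 ≤ m → m ≤ c → |t m| ≤ c := by
    intro m hm1 hm2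
    have e1 := h2 m hm1 hm2
    rw [Perm.mul_apply] at e1
    have e2 := w_ne_zero hw (t_ne_zero D hm1)
    have e3 := abs_pos.2 e2
    have e4 := abs_pos.2 (t_ne_zero D hm1)
    obtain ⟨m', a1, a2, a3⟩ := G_surj hw h1 (v := |w (t m)|) (by omega) e1
    have e5 := abs_inj hw (m := m') (m' := |t m|) a1 (by omega) (by rw [a3, C_abs hw])
    omega
  have hpc : p ≤ c → q ≤ c ∧ (t p = q ∨ t p = -q) := by
    intro hp
    have e1 := ht p D.hp.1 hp
    obtain ⟨k, hk⟩ := (tp_form D).1
    have e2 := small_rep (n := n) (t_ne_zero D D.hp.1) (by omega) D.hq hk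
    refine ⟨?_, e2⟩
    rcases e2 with e2 | e2
    · rw [e2, abs_of_pos (by have := D.hq; omega)] at e1
      exact e1
    · rw [e2, abs_neg, abs_of_pos (by have := D.hq; omega)] at e1
      exact e1
  have hqc : q ≤ c → p ≤ c := by
    intro hq
    have e1 := ht q D.hq.1 hq
    obtain ⟨k, hk⟩ := tq_form D
    have e2 := small_rep (n := n) (t_ne_zero D D.hq.1) (by omega) D.hp hk
    rcases e2 with e2 | e2
    · rw [e2, abs_of_pos (by have := D.hp; omega)] at e1
      exact e1
    · rw [e2, abs_neg, abs_of_pos (by have := D.hp; omega)] at e1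
      exact e1
  unfold F
  rw [← Finset.sum_sub_distrib]
  by_cases hp : p ≤ c
  · obtain ⟨hq, htp⟩ := hpc hp
    have hpq : p ≠ q := by
      intro hpq
      subst hpq
      rcases htp with htp | htp
      · exact t_ne_self D htp
      · have : F n t n = -1 := by
          unfold F
          rw [Finset.sum_eq_single p]
          · rw [htp, fl_m1]
            · have := D.hp
              have hN := NN_eq n
              omega
            · have := D.hp
              omega
          · intro m hm h
            rw [Finset.mem_Icc] at hm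
            rw [D.fixw hm h h, fl_zero (by omega)]
            have hN := NN_eq n
            omega
          · intro h
            exact absurd (Finset.mem_Icc.2 D.hp) h
        rw [this] at hF
        exact absurd hF (by decide)
    rw [sum_two hpq (Finset.mem_Icc.2 ⟨D.hp.1, hp⟩) (Finset.mem_Icc.2 ⟨D.hq.1, hq⟩)]
    · rw [Perm.mul_apply, Perm.mul_apply]
      have htt := (tp_form D).2
      rcases htp with htp | htp
      · rw [htp] at htt
        rw [htp, htt]
        have : w q / NN n - w p / NN n + (w p / NN n - w q / NN n) = 0 := by ring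
        rw [this]
        exact Even.zero
      · rw [htp, D.hC.1] at htt
        have htq : t q = -p := by linarith
        rw [htp, htq, hw.1, hw.1, fl_neg (w_ne hw D.hp), fl_neg (w_ne hw D.hq)]
        exact ⟨-1 - w q / NN n - w p / NN n, by ring⟩
    · intro m hm e1 e2
      rw [Finset.mem_Icc] at hm
      rw [Perm.mul_apply, D.fixw ⟨hm.1, by omega⟩ e1 e2, sub_self]
  · have hq : ¬ q ≤ c := fun h => hp (hqc h)
    rw [Finset.sum_eq_zero]
    · exact Even.zero
    · intro m hm
      rw [Finset.mem_Icc] at hm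
      rw [Perm.mul_apply, D.fixw ⟨hm.1, by omega⟩ (by omega) (by omega), sub_self]

/-- **the potential is Lipschitz**. -/
theorem lip (ht : IsRefl n t) (hw : IsC n w) :
    tvd n (w * t) + 2 * (Bad n (w * t)).card ≤ tvd n w + 2 * (Bad n w).card + tvd n t := by
  classical
  obtain ⟨i, j, p, q, a, b, D⟩ := exists_data ht
  have hF : Even (F n t n) := (isB_iff.1 ht.1).2
  have hij := D.lt
  set New := (Icc (1 : ℤ) (n - 1)).filter (fun c => ¬ G w c ∧ G (w * t) c) with hNew
  have hmem : ∀ c ∈ New, (1 ≤ c ∧ c ≤ n - 1) ∧ ¬ G w c ∧ G (w * t) c := by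
    intro c hc
    rw [hNew, Finset.mem_filter, Finset.mem_Icc] at hc
    exact hc
  have hsub : Bad n (w * t) ⊆ Bad n w ∪ New := by
    intro c hc
    rw [mem_Bad] at hc
    obtain ⟨h1, h2, h3⟩ := hc
    rw [Finset.mem_union]
    by_cases h4 : G w c
    · left
      rw [mem_Bad]
      refine ⟨h1, h4, ?_⟩
      have := parity_same D hF hw h1 h4 h2
      have e : F n w c = F n (w * t) c - (F n (w * t) c - F n w c) := by ring
      rw [e]
      exact h3.sub_even this
    · right
      rw [hNew, Finset.mem_filter, Finset.mem_Icc]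
      exact ⟨h1, h4, h2⟩
  have hcard : (Bad n (w * t)).card ≤ (Bad n w).card + New.card :=
    (Finset.card_le_card hsub).trans (Finset.card_union_le _ _)
  choose! g hg1 hg2 using fun c (hc : c ∈ New) =>
    new_gap D hw (hmem c hc).1 (hmem c hc).2.1 (hmem c hc).2.2
  have hginj : ∀ c ∈ New, ∀ c' ∈ New, Att n c' (g c) → c = c' := by
    intro c hc c' hc' h
    exact att_unique (hmem c hc).1 (hmem c' hc').1 (hg2 c hc) h
  have hdisp := disp_le w hij
  by_cases hpq : p = q
  · -- same class: each new cut gives two gaps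
    obtain ⟨κ, hκ⟩ := same_class D hpq
    have hrefl : ∀ x, x ∈ Z w i j → κ * NN n - 1 - x ∈ Z w i j := by
      intro x hx
      rw [mem_Z] at hx ⊢
      have e1 : w j = -w i + κ * NN n := by rw [hκ, C_neg_add hw]
      omega
    have hatt : ∀ c x, Att n c x → Att n c (κ * NN n - 1 - x) := by
      rintro c x ⟨k, rfl | rfl⟩
      · exact ⟨κ - k, Or.inr (by ring)⟩
      · exact ⟨κ - k, Or.inl (by ring)⟩
    have hne : ∀ x : ℤ, κ * NN n - 1 - x ≠ x := by
      intro x hx
      have e1 : κ * NN n = 2 * (κ * (n + 1)) := by rw [NN_eq]; ring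
      omega
    have hcardZ : 2 * New.card ≤ (Z w i j).card := by
      have h1 : (New ×ˢ (Finset.univ : Finset Bool)).card = 2 * New.card := by
        rw [Finset.card_product]
        simp [mul_comm]
      rw [← h1]
      apply Finset.card_le_card_of_injOn
        (fun z : ℤ × Bool => if z.2 = true then g z.1 else κ * NN n - 1 - g z.1)
      · rintro ⟨c, y⟩ hz
        simp only [Finset.coe_product, Set.mem_prod, Finset.mem_coe, Finset.mem_univ,
          and_true] at hz
        dsimp only
        split_ifs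
        · exact hg1 c hz
        · exact hrefl _ (hg1 c hz)
      · rintro ⟨c, y⟩ hz ⟨c', y'⟩ hz' he
        simp only [Finset.coe_product, Set.mem_prod, Finset.mem_coe, Finset.mem_univ,
          and_true] at hz hz'
        dsimp only at he
        rcases y with _ | _ <;> rcases y' with _ | _ <;> simp only [if_true, if_false,
          Bool.false_eq_true] at he
        · have e1 : g c = g c' := by linarith
          have e2 := hginj c hz c' hz' (by rw [e1]; exact hg2 c' hz')
          rw [e2]
        · have e2 : c' = c := hginj c' hz' c hz (by rw [← he]; exact hatt _ _ (hg2 c hz))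
          rw [e2] at he
          exact absurd he (hne _)
        · have e2 : c = c' := hginj c hz c' hz' (by rw [he]; exact hatt _ _ (hg2 c' hz'))
          rw [e2] at he
          exact absurd he.symm (hne _)
        · have e2 := hginj c hz c' hz' (by rw [he]; exact hg2 c' hz')
          rw [e2]
    have h1 := tvd_eq D hw hpq
    have h2 := tvd_t_eq D hpq
    have e1 : w j = -w i + κ * NN n := by rw [hκ, C_neg_add hw]
    have e2 : |w i - j| = |w j - i| := by
      rw [e1, hκ, ← abs_neg]
      congr 1
      ring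
    have e3 : |w j - j| = |w i - i| := by
      rw [e1, hκ, ← abs_neg]
      congr 1
      ring
    rw [e2, e3] at hdisp
    omega
  · have hcardZ : New.card ≤ (Z w i j).card := by
      apply Finset.card_le_card_of_injOn g
      · intro c hc
        exact hg1 c hc
      · intro c hc c' hc' he
        exact hginj c hc c' hc' (by rw [he]; exact hg2 c' hc')
    have h1 := tvd_ne D hw hpq
    have h2 := tvd_t_ne D hpq
    omega

theorem Bad_one : Bad n 1 = ∅ := by
  apply Finset.eq_empty_of_forall_notMem
  intro c hc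
  rw [mem_Bad] at hc
  have : F n 1 c = 0 := by
    unfold F
    apply Finset.sum_eq_zero
    intro m hm
    rw [Finset.mem_Icc] at hm
    have hN := NN_eq n
    rw [Perm.one_apply, fl_zero (by omega) (by omega)]
  rw [this] at hc
  exact absurd hc.2.2 (by decide)

theorem lower_list : ∀ l : List (Perm ℤ), (∀ t ∈ l, IsRefl n t) →
    IsC n l.prod ∧ tvd n l.prod + 2 * (Bad n l.prod).card ≤ (l.map (tvd n)).sum := by
  intro l
  induction l using List.reverseRecOn with
  | nil =>
    intro _
    refine ⟨C_one, ?_⟩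
    rw [List.prod_nil, tvd_one, Bad_one]
    simp
  | append_singleton l t ih =>
    intro h
    obtain ⟨h1, h2⟩ := ih (fun t ht => h t (by simp [ht]))
    have ht : IsRefl n t := h t (by simp)
    rw [List.prod_append, List.prod_singleton, List.map_append, List.sum_append,
      List.map_singleton, List.sum_singleton]
    refine ⟨C_mul h1 ht.1.1, ?_⟩
    have := lip ht h1
    linarith

end lower

/-! ### Construction of transpositions -/

section construct

variable {n : ℕ}

theorem NN_cast (n : ℕ) : ((NN n : ℤ) : ZMod (2 * n + 2)) = 0 := by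
  have : (NN n : ℤ) = ((2 * n + 2 : ℕ) : ℤ) := by rw [NN_eq]; push_cast; rfl
  rw [this, Int.cast_natCast, ZMod.natCast_self]

/-- the function exchanging the two classes. -/
noncomputable def sw (n : ℕ) (i j x : ℤ) : ℤ :=
  if (x : ZMod (2 * n + 2)) = i then x + (j - i)
  else if (x : ZMod (2 * n + 2)) = -i then x - (j - i)
  else if (x : ZMod (2 * n + 2)) = j then x - (j - i)
  else if (x : ZMod (2 * n + 2)) = -j then x + (j - i)
  else x

/-- the hypotheses on `i` and `j`. -/
structure Hyp (n : ℕ) (i j : ℤ) : Prop where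
  hi : (i : ZMod (2 * n + 2)) ≠ -i
  hj : (j : ZMod (2 * n + 2)) ≠ -j
  hij : (i : ZMod (2 * n + 2)) ≠ j

variable {i j : ℤ}

theorem sw1 {x : ℤ} (h : (x : ZMod (2 * n + 2)) = i) : sw n i j x = x + (j - i) := by
  unfold sw
  rw [if_pos h]

theorem sw2 (H : Hyp n i j) {x : ℤ} (h : (x : ZMod (2 * n + 2)) = -i) :
    sw n i j x = x - (j - i) := by
  unfold sw
  rw [if_neg (fun h' => H.hi (h'.symm.trans h)), if_pos h]

theorem sw3 (H : Hyp n i j) {x : ℤ} (h : (x : ZMod (2 * n + 2)) = j) :
    sw n i j x = x - (j - i) := by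
  unfold sw
  rw [if_neg (fun h' => H.hij (h'.symm.trans h))]
  split_ifs
  · rfl
  · rfl

theorem sw4 (H : Hyp n i j) {x : ℤ} (h : (x : ZMod (2 * n + 2)) = -j) :
    sw n i j x = x + (j - i) := by
  unfold sw
  split_ifs with c1 c2 c3
  · rfl
  · exact absurd (neg_injective (c2.symm.trans h)) H.hij
  · exact absurd (c3.symm.trans h) H.hj
  · rfl

theorem sw5 {x : ℤ} (h1 : (x : ZMod (2 * n + 2)) ≠ i) (h2 : (x : ZMod (2 * n + 2)) ≠ -i)
    (h3 : (x : ZMod (2 * n + 2)) ≠ j) (h4 : (x : ZMod (2 * n + 2)) ≠ -j) : sw n i j x = x := by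
  unfold sw
  rw [if_neg h1, if_neg h2, if_neg h3, if_neg h4]

theorem sw_invol (H : Hyp n i j) : Function.Involutive (sw n i j) := by
  intro x
  by_cases h1 : (x : ZMod (2 * n + 2)) = i
  · rw [sw1 h1, sw3 H]
    · ring
    · push_cast
      rw [h1]
      ring
  · by_cases h2 : (x : ZMod (2 * n + 2)) = -i
    · rw [sw2 H h2, sw4 H]
      · ring
      · push_cast
        rw [h2]
        ring
    · by_cases h3 : (x : ZMod (2 * n + 2)) = j
      · rw [sw3 H h3, sw1]
        · ring
        · push_cast
          rw [h3]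
          ring
      · by_cases h4 : (x : ZMod (2 * n + 2)) = -j
        · rw [sw4 H h4, sw2 H]
          · ring
          · push_cast
            rw [h4]
            ring
        · rw [sw5 h1 h2 h3 h4, sw5 h1 h2 h3 h4]

/-- the transposition. -/
noncomputable def swp (H : Hyp n i j) : Perm ℤ := (sw_invol H).toPerm

theorem swp_apply (H : Hyp n i j) (x : ℤ) : swp H x = sw n i j x := rfl

theorem swp_mul (H : Hyp n i j) : swp H * swp H = 1 := by
  ext x
  rw [Perm.mul_apply, swp_apply, swp_apply, sw_invol H x]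
  rfl

theorem swp_C (H : Hyp n i j) : IsC n (swp H) := by
  constructor
  · intro x
    rw [swp_apply, swp_apply]
    by_cases h1 : (x : ZMod (2 * n + 2)) = i
    · rw [sw1 h1, sw2 H (by push_cast; rw [h1])]
      ring
    · by_cases h2 : (x : ZMod (2 * n + 2)) = -i
      · rw [sw2 H h2, sw1 (by push_cast; rw [h2, neg_neg])]
        ring
      · by_cases h3 : (x : ZMod (2 * n + 2)) = j
        · rw [sw3 H h3, sw4 H (by push_cast; rw [h3])]
          ring
        · by_cases h4 : (x : ZMod (2 * n + 2)) = -j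
          · rw [sw4 H h4, sw3 H (by push_cast; rw [h4, neg_neg])]
            ring
          · rw [sw5 h1 h2 h3 h4, sw5]
            · push_cast
              intro h
              exact h2 (by rw [← h, neg_neg])
            · push_cast
              intro h
              exact h1 (neg_injective h)
            · push_cast
              intro h
              exact h4 (by rw [← h, neg_neg])
            · push_cast
              intro h
              exact h3 (neg_injective h)
  · intro x
    rw [swp_apply, swp_apply]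
    have e : ((x + NN n : ℤ) : ZMod (2 * n + 2)) = x := by
      push_cast
      rw [NN_cast, add_zero]
    by_cases h1 : (x : ZMod (2 * n + 2)) = i
    · rw [sw1 h1, sw1 (by rw [e, h1])]
      ring
    · by_cases h2 : (x : ZMod (2 * n + 2)) = -i
      · rw [sw2 H h2, sw2 H (by rw [e, h2])]
        ring
      · by_cases h3 : (x : ZMod (2 * n + 2)) = j
        · rw [sw3 H h3, sw3 H (by rw [e, h3])]
          ring
        · by_cases h4 : (x : ZMod (2 * n + 2)) = -j
          · rw [sw4 H h4, sw4 H (by rw [e, h4])]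
            ring
          · rw [sw5 h1 h2 h3 h4, sw5] <;> rw [e] <;> assumption

theorem swp_i (H : Hyp n i j) : swp H i = j := by
  rw [swp_apply, sw1 rfl]
  ring

theorem swp_j (H : Hyp n i j) : swp H j = i := by
  rw [swp_apply, sw3 H rfl]
  ring

theorem cast_eq_iff {x y : ℤ} (h : (x : ZMod (2 * n + 2)) = y) : ∃ k, x = y + k * NN n := by
  have h1 : ((y - x : ℤ) : ZMod (2 * n + 2)) = 0 := by
    push_cast
    rw [h, sub_self]
  rw [ZMod.intCast_zmod_eq_zero_iff_dvd] at h1
  obtain ⟨k, hk⟩ := h1
  refine ⟨-k, ?_⟩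
  have e : ((2 * n + 2 : ℕ) : ℤ) = NN n := by rw [NN_eq]; push_cast; rfl
  rw [e] at hk
  linarith

theorem swp_fix (H : Hyp n i j) (x : ℤ) (hx : ∀ k : ℤ, x ≠ i + k * NN n ∧ x ≠ j + k * NN n ∧
    x ≠ -i + k * NN n ∧ x ≠ -j + k * NN n) : swp H x = x := by
  rw [swp_apply, sw5]
  · intro h
    obtain ⟨k, hk⟩ := cast_eq_iff h
    exact (hx k).1 hk
  · intro h
    rw [← Int.cast_neg] at h
    obtain ⟨k, hk⟩ := cast_eq_iff h
    exact (hx k).2.2.1 hk
  · intro h
    obtain ⟨k, hk⟩ := cast_eq_iff h
    exact (hx k).2.1 hk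
  · intro h
    rw [← Int.cast_neg] at h
    obtain ⟨k, hk⟩ := cast_eq_iff h
    exact (hx k).2.2.2 hk

theorem swp_isSwap (H : Hyp n i j) : IsSwap n i j (swp H) := by
  rw [isSwap_iff]
  refine ⟨?_, swp_fix H⟩
  intro k
  have hC := swp_C H
  refine ⟨?_, ?_, ?_, ?_⟩
  · rw [C_add hC, swp_i]
  · rw [C_add hC, swp_j]
  · rw [C_neg_add hC, swp_i]
  · rw [C_neg_add hC, swp_j]

theorem cast_ne_zero {m : ℤ} (h1 : m ≠ 0) (h2 : -NN n < m) (h3 : m < NN n) :
    (m : ZMod (2 * n + 2)) ≠ 0 := by
  intro h
  rw [ZMod.intCast_zmod_eq_zero_iff_dvd] at h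
  obtain ⟨k, hk⟩ := h
  have e : ((2 * n + 2 : ℕ) : ℤ) = NN n := by rw [NN_eq]; push_cast; rfl
  rw [e, mul_comm] at hk
  rw [hk] at h2 h3
  have := mul_small h2 h3
  rw [this, zero_mul] at hk
  exact h1 hk

theorem ne_neg {m : ℤ} (h1 : m ≠ 0) (h2 : -NN n < 2 * m) (h3 : 2 * m < NN n) :
    (m : ZMod (2 * n + 2)) ≠ -m := by
  intro h
  apply cast_ne_zero (n := n) (m := 2 * m) (by omega) h2 h3
  push_cast
  linear_combination h

theorem ne_of {m m' : ℤ} (h1 : m - m' ≠ 0) (h2 : -NN n < m - m') (h3 : m - m' < NN n) :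
    (m : ZMod (2 * n + 2)) ≠ m' := by
  intro h
  apply cast_ne_zero (n := n) h1 h2 h3
  push_cast
  rw [h, sub_self]

/-- assembling. -/
theorem mk_refl {p q a b : ℤ} (H : Hyp n i j) (lt : i < j) (hp : 1 ≤ p ∧ p ≤ n)
    (hq : 1 ≤ q ∧ q ≤ n) (hi : i = p + a * NN n ∨ i = -p + a * NN n)
    (hj : j = q + b * NN n ∨ j = -q + b * NN n) (hF : Even (F n (swp H) n)) :
    IsRefl n (swp H) ∧ Data n (swp H) i j p q a b :=
  ⟨⟨isB_iff.2 ⟨swp_C H, hF⟩, i, j, lt.ne, swp_isSwap H⟩,
    ⟨swp_C H, lt, hp, hq, hi, hj, swp_i H, swp_j H, swp_fix H⟩⟩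

theorem F_two {t : Perm ℤ} {p q a b : ℤ} (D : Data n t i j p q a b) (hpq : p ≠ q) :
    F n t n = t p / NN n + t q / NN n := by
  unfold F
  apply sum_two hpq (Finset.mem_Icc.2 D.hp) (Finset.mem_Icc.2 D.hq)
  intro m hm h1 h2
  rw [Finset.mem_Icc] at hm
  have hN := NN_eq n
  rw [D.fixw hm h1 h2, fl_zero (by omega) (by omega)]

theorem F_single {t : Perm ℤ} {p a b : ℤ} (D : Data n t i j p p a b) :
    F n t n = t p / NN n := by
  unfold F
  apply Finset.sum_eq_single p
  · intro m hm h1
    rw [Finset.mem_Icc] at hm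
    have hN := NN_eq n
    rw [D.fixw hm h1 h1, fl_zero (by omega) (by omega)]
  · intro h
    exact absurd (Finset.mem_Icc.2 D.hp) h

theorem swap_pq {p q : ℤ} (hp : 1 ≤ p) (hpq : p < q) (hq : q ≤ n) :
    ∃ t, IsRefl n t ∧ t * t = 1 ∧ Data n t p q p q 0 0 ∧ t p = q ∧ t q = p := by
  have hN := NN_eq n
  have H : Hyp n p q := ⟨ne_neg (by omega) (by omega) (by omega),
    ne_neg (by omega) (by omega) (by omega), ne_of (by omega) (by omega) (by omega)⟩
  have D : Data n (swp H) p q p q 0 0 := ⟨swp_C H, hpq, ⟨hp, by omega⟩, ⟨by omega, hq⟩,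
    Or.inl (by ring), Or.inl (by ring), swp_i H, swp_j H, swp_fix H⟩
  have h := mk_refl H D.lt D.hp D.hq D.hi D.hj (by
    rw [F_two D hpq.ne, swp_i, swp_j, fl_zero (by omega) (by omega),
      fl_zero (by omega) (by omega)]
    decide)
  exact ⟨swp H, h.1, swp_mul H, D, swp_i H, swp_j H⟩

theorem swap_npq {p q : ℤ} (hp : 1 ≤ p) (hpq : p < q) (hq : q ≤ n) :
    ∃ t, IsRefl n t ∧ t * t = 1 ∧ Data n t (-p) q p q 0 0 ∧ t p = -q ∧ t q = -p := by
  have hN := NN_eq n
  have H : Hyp n (-p) q := ⟨ne_neg (by omega) (by omega) (by omega),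
    ne_neg (by omega) (by omega) (by omega), ne_of (by omega) (by omega) (by omega)⟩
  have D : Data n (swp H) (-p) q p q 0 0 := ⟨swp_C H, by omega, ⟨hp, by omega⟩, ⟨by omega, hq⟩,
    Or.inr (by ring), Or.inl (by ring), swp_i H, swp_j H, swp_fix H⟩
  have e : swp H p = -q := by
    have := (swp_C H).1 (-p)
    rw [neg_neg, swp_i] at this
    exact this
  have h := mk_refl H D.lt D.hp D.hq D.hi D.hj (by
    rw [F_two D hpq.ne, e, swp_j, fl_m1 (by omega) (by omega), fl_m1 (by omega) (by omega)]
    decide)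
  exact ⟨swp H, h.1, swp_mul H, D, e, swp_j H⟩

theorem swap_mid {p : ℤ} (hp : 1 ≤ p ∧ p ≤ n) :
    ∃ t, IsRefl n t ∧ t * t = 1 ∧ Data n t p (NN n - p) p p 0 1 ∧ t p = NN n - p := by
  have hN := NN_eq n
  have H : Hyp n p (NN n - p) := by
    refine ⟨ne_neg (by omega) (by omega) (by omega), ?_, ?_⟩
    · have h := ne_neg (n := n) (m := p) (by omega) (by omega) (by omega)
      push_cast
      rw [NN_cast]
      intro h'
      apply h
      linear_combination -h'
    · have h := ne_neg (n := n) (m := p) (by omega) (by omega) (by omega)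
      push_cast
      rw [NN_cast]
      intro h'
      apply h
      linear_combination h'
  have D : Data n (swp H) p (NN n - p) p p 0 1 := ⟨swp_C H, by omega, hp, hp,
    Or.inl (by ring), Or.inr (by ring), swp_i H, swp_j H, swp_fix H⟩
  have h := mk_refl H D.lt D.hp D.hq D.hi D.hj (by
    rw [F_single D, swp_i, fl_zero (by omega) (by omega)]
    decide)
  exact ⟨swp H, h.1, swp_mul H, D, swp_i H⟩

theorem swap_mid' {p : ℤ} (hp : 1 ≤ p ∧ p ≤ n) :
    ∃ t, IsRefl n t ∧ t * t = 1 ∧ Data n t (-p) (NN n + p) p p 0 1 ∧ t p = -(NN n + p) := by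
  have hN := NN_eq n
  have H : Hyp n (-p) (NN n + p) := by
    refine ⟨ne_neg (by omega) (by omega) (by omega), ?_, ?_⟩
    · have h := ne_neg (n := n) (m := p) (by omega) (by omega) (by omega)
      push_cast
      rw [NN_cast]
      intro h'
      apply h
      linear_combination h'
    · have h := ne_neg (n := n) (m := p) (by omega) (by omega) (by omega)
      push_cast
      rw [NN_cast]
      intro h'
      apply h
      linear_combination -h'
  have D : Data n (swp H) (-p) (NN n + p) p p 0 1 := ⟨swp_C H, by omega, hp, hp,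
    Or.inr (by ring), Or.inl (by ring), swp_i H, swp_j H, swp_fix H⟩
  have e : swp H p = -(NN n + p) := by
    have := (swp_C H).1 (-p)
    rw [neg_neg, swp_i] at this
    exact this
  have h := mk_refl H D.lt D.hp D.hq D.hi D.hj (by
    have e2 : (-(NN n + p)) / NN n = -2 := by
      have : -(NN n + p) = -p + (-1) * NN n := by ring
      rw [this, fl_add, fl_m1 (by omega) (by omega)]
      rfl
    rw [F_single D, e, e2]
    decide)
  exact ⟨swp H, h.1, swp_mul H, D, e⟩

end construct

/-! ### The sorting algorithm -/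

section upper

variable {n : ℕ} {w : Perm ℤ}

theorem F_succ (w : Perm ℤ) {x : ℤ} (hx : 0 ≤ x) :
    F n w (x + 1) = F n w x + w (x + 1) / NN n := by
  unfold F
  have : Icc (1 : ℤ) (x + 1) = insert (x + 1) (Icc 1 x) := by
    ext m
    rw [Finset.mem_insert, Finset.mem_Icc, Finset.mem_Icc]
    omega
  rw [this, Finset.sum_insert (by rw [Finset.mem_Icc]; omega), add_comm]

theorem F_fixed (w : Perm ℤ) {x y : ℤ} (hx : 0 ≤ x) (hxy : x ≤ y) (hy : y ≤ n)
    (h : ∀ m, x < m → m ≤ y → w m = m) : F n w y = F n w x := by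
  induction y, hxy using Int.leInduction with
  | base => rfl
  | succ y hxy ih =>
    have hN := NN_eq n
    rw [F_succ w (by omega), ih (by omega) (fun m h1 h2 => h m h1 (by omega)),
      h (y + 1) (by omega) le_rfl, fl_zero (by omega) (by omega), add_zero]

variable {t : Perm ℤ} {i j p q a b : ℤ}

theorem F_diff1 (D : Data n t i j p q a b) {c : ℤ} (hp : p ≤ c) (hq : q = p ∨ c < q)
    (hc : c ≤ n) : F n (w * t) c = F n w c - w p / NN n + w (t p) / NN n := by
  have h : F n (w * t) c - F n w c = w (t p) / NN n - w p / NN n := by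
    unfold F
    rw [← Finset.sum_sub_distrib, Finset.sum_eq_single p]
    · rfl
    · intro m hm h1
      rw [Finset.mem_Icc] at hm
      rw [Perm.mul_apply, D.fixw ⟨hm.1, by omega⟩ h1 (by omega), sub_self]
    · intro h
      exact absurd (Finset.mem_Icc.2 ⟨D.hp.1, hp⟩) h
  linarith

theorem F_diff2 (D : Data n t i j p q a b) {c : ℤ} (hpq : p ≠ q) (hp : p ≤ c) (hq : q ≤ c)
    (hc : c ≤ n) : F n (w * t) c =
      F n w c - w p / NN n - w q / NN n + w (t p) / NN n + w (t q) / NN n := by
  have h : F n (w * t) c - F n w c =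
      (w (t p) / NN n - w p / NN n) + (w (t q) / NN n - w q / NN n) := by
    unfold F
    rw [← Finset.sum_sub_distrib, sum_two hpq (Finset.mem_Icc.2 ⟨D.hp.1, hp⟩)
      (Finset.mem_Icc.2 ⟨D.hq.1, hq⟩)]
    · rfl
    · intro m hm h1 h2
      rw [Finset.mem_Icc] at hm
      rw [Perm.mul_apply, D.fixw ⟨hm.1, by omega⟩ h1 h2, sub_self]
  linarith

theorem F_diff0 (D : Data n t i j p q a b) {c : ℤ} (hp : c < p) (hq : c < q)
    (hc : c ≤ n) : F n (w * t) c = F n w c := by
  unfold F
  apply Finset.sum_congr rfl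
  intro m hm
  rw [Finset.mem_Icc] at hm
  rw [Perm.mul_apply, D.fixw ⟨hm.1, by omega⟩ (by omega) (by omega)]

theorem G_diff0 (D : Data n t i j p q a b) {c : ℤ} (hp : c < p) (hq : c < q)
    (hc : c ≤ n) (h : G (w * t) c) : G w c := by
  intro m h1 h2
  have := h m h1 h2
  rwa [Perm.mul_apply, D.fixw ⟨h1, by omega⟩ (by omega) (by omega)] at this

/-- below both positions nothing changes. -/
theorem bad0 (D : Data n t i j p q a b) {c : ℤ} (hp : c < p) (hq : c < q)
    (h : c ∈ Bad n (w * t)) : c ∈ Bad n w := by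
  rw [mem_Bad] at h ⊢
  obtain ⟨h1, h2, h3⟩ := h
  refine ⟨h1, G_diff0 D hp hq (by omega) h2, ?_⟩
  rwa [F_diff0 D hp hq (by omega)] at h3

/-- above both positions nothing changes (swap of `p`, `q`). -/
theorem bad2 (D : Data n t p q p q a b) {c : ℤ} (hp : p ≤ c) (hq : q ≤ c)
    (h : c ∈ Bad n (w * t)) : c ∈ Bad n w := by
  rw [mem_Bad] at h ⊢
  obtain ⟨h1, h2, h3⟩ := h
  refine ⟨h1, ?_, ?_⟩
  · intro m hm1 hm2
    by_cases e1 : m = p
    · have := h2 q D.hq.1 hq
      rwa [Perm.mul_apply, D.tj, ← e1] at this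
    · by_cases e2 : m = q
      · have := h2 p D.hp.1 hp
        rwa [Perm.mul_apply, D.ti, ← e2] at this
      · have := h2 m hm1 hm2
        rwa [Perm.mul_apply, D.fixw ⟨hm1, by omega⟩ e1 e2] at this
  · rw [F_diff2 D D.lt.ne hp hq (by omega), D.ti, D.tj] at h3
    have e : F n w c - w p / NN n - w q / NN n + w q / NN n + w p / NN n = F n w c := by ring
    rwa [e] at h3

/-- above both positions nothing changes (swap of `-p`, `q`). -/
theorem bad2' (D : Data n t (-p) q p q a b) (hw : IsC n w) (hpq : p ≠ q) (htp : t p = -q)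
    (htq : t q = -p) {c : ℤ} (hp : p ≤ c) (hq : q ≤ c)
    (h : c ∈ Bad n (w * t)) : c ∈ Bad n w := by
  rw [mem_Bad] at h ⊢
  obtain ⟨h1, h2, h3⟩ := h
  refine ⟨h1, ?_, ?_⟩
  · intro m hm1 hm2
    by_cases e1 : m = p
    · have := h2 q D.hq.1 hq
      rwa [Perm.mul_apply, htq, hw.1, abs_neg, ← e1] at this
    · by_cases e2 : m = q
      · have := h2 p D.hp.1 hp
        rwa [Perm.mul_apply, htp, hw.1, abs_neg, ← e2] at this
      · have := h2 m hm1 hm2
        rwa [Perm.mul_apply, D.fixw ⟨hm1, by omega⟩ e1 e2] at this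
  · rw [F_diff2 D hpq hp hq (by omega), htp, htq, hw.1, hw.1, fl_neg (w_ne hw D.hp),
      fl_neg (w_ne hw D.hq)] at h3
    have e : F n w c = (F n w c - w p / NN n - w q / NN n + (-1 - w q / NN n) +
      (-1 - w p / NN n)) + 2 * (1 + w p / NN n + w q / NN n) := by ring
    rw [e]
    exact h3.add_even (even_two_mul _)

/-- the conclusion of a step of the algorithm. -/
def Step (n : ℕ) (w : Perm ℤ) : Prop :=
  ∃ t, IsRefl n t ∧ t * t = 1 ∧ 0 < tvd n t ∧ IsB n (w * t) ∧
    tvd n (w * t) + 2 * (Bad n (w * t)).card + tvd n t ≤ tvd n w + 2 * (Bad n w).card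

theorem use_pq (hw : IsB n w) {p q K : ℤ} (hp : 1 ≤ p) (hpq : p < q) (hq : q ≤ n)
    (hK : |w q - p| + |w p - q| - |w p - p| - |w q - q| + 2 * (q - p) ≤ K)
    (hBad : ∀ t, Data n t p q p q 0 0 →
      2 * ((Bad n (w * t)).card : ℤ) + K ≤ 2 * (Bad n w).card) : Step n w := by
  obtain ⟨t, h1, h2, D, h4, h5⟩ := swap_pq hp hpq hq
  have hC := hw.1
  have e1 := tvd_ne D hC hpq.ne
  have e2 := tvd_t_ne D hpq.ne
  have e3 := hBad t D
  refine ⟨t, h1, h2, by omega, ?_, by omega⟩
  rw [isB_iff] at hw ⊢
  refine ⟨C_mul hC D.hC, ?_⟩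
  rw [F_diff2 D hpq.ne (by omega) hq le_rfl, h4, h5]
  have e : F n w n - w p / NN n - w q / NN n + w q / NN n + w p / NN n = F n w n := by ring
  rw [e]
  exact hw.2

theorem use_npq (hw : IsB n w) {p q : ℤ} (hp : 1 ≤ p) (hpq : p < q) (hq : q ≤ n)
    (hK : |w q + p| + |-w p - q| - |-w p + p| - |w q - q| + 2 * (q + p) ≤ 0)
    (hBad : ∀ t, Data n t (-p) q p q 0 0 → t p = -q → t q = -p →
      Bad n (w * t) ⊆ Bad n w) : Step n w := by
  obtain ⟨t, h1, h2, D, h4, h5⟩ := swap_npq hp hpq hq
  have hC := hw.1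
  have e1 := tvd_ne D hC hpq.ne
  have e2 := tvd_t_ne D hpq.ne
  have e3 := Finset.card_le_card (hBad t D h4 h5)
  rw [hC.1] at e1
  have e4 : w q - -p = w q + p := by ring
  have e5 : -w p - -p = -w p + p := by ring
  rw [e4, e5] at e1
  refine ⟨t, h1, h2, by omega, ?_, by omega⟩
  rw [isB_iff] at hw ⊢
  refine ⟨C_mul hC D.hC, ?_⟩
  rw [F_diff2 D hpq.ne (by omega) hq le_rfl, h4, h5, hC.1, hC.1, fl_neg (w_ne hC D.hp),
    fl_neg (w_ne hC D.hq)]
  have e : F n w n - w p / NN n - w q / NN n + (-1 - w q / NN n) +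
      (-1 - w p / NN n) = F n w n - 2 * (1 + w p / NN n + w q / NN n) := by ring
  rw [e]
  exact hw.2.sub (even_two_mul _)

theorem use_mid (hw : IsB n w) {p : ℤ} (hp : 1 ≤ p ∧ p ≤ n)
    (hK : |-w p + NN n - p| - |w p - p| + (NN n - 2 * p) ≤ 0)
    (hBad : ∀ t, Data n t p (NN n - p) p p 0 1 → t p = NN n - p → Even (F n (w * t) n) →
      Bad n (w * t) ⊆ Bad n w) : Step n w := by
  obtain ⟨t, h1, h2, D, h4⟩ := swap_mid hp
  have hC := hw.1
  have e1 := tvd_eq D hC rfl
  have e2 := tvd_t_eq D rfl
  have e4 : w (NN n - p) = -w p + NN n := by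
    have := C_neg_add hC p 1
    rw [one_mul] at this
    rw [← this]
    congr 1
    ring
  rw [e4] at e1
  have hN := NN_eq n
  have hE : Even (F n (w * t) n) := by
    rw [F_diff1 D hp.2 (Or.inl rfl) le_rfl, h4, e4]
    have e5 : (-w p + NN n) / NN n = -w p / NN n + 1 := by
      have := fl_add (n := n) (-w p) 1
      rwa [one_mul] at this
    rw [e5, fl_neg (w_ne hC hp)]
    have e : F n w n - w p / NN n + (-1 - w p / NN n + 1) = F n w n - 2 * (w p / NN n) := by
      ring
    rw [e]
    exact (isB_iff.1 hw).2.sub (even_two_mul _)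
  have e3 := Finset.card_le_card (hBad t D h4 hE)
  exact ⟨t, h1, h2, by omega, isB_iff.2 ⟨C_mul hC D.hC, hE⟩, by omega⟩

theorem use_mid' (hw : IsB n w) {p : ℤ} (hp : 1 ≤ p ∧ p ≤ n)
    (hK : |w p + NN n + p| - |-w p + p| + (NN n + 2 * p) ≤ 0)
    (hBad : ∀ t, Data n t (-p) (NN n + p) p p 0 1 → t p = -(NN n + p) →
      Bad n (w * t) ⊆ Bad n w) : Step n w := by
  obtain ⟨t, h1, h2, D, h4⟩ := swap_mid' hp
  have hC := hw.1
  have e1 := tvd_eq D hC rfl
  have e2 := tvd_t_eq D rfl
  have e3 := Finset.card_le_card (hBad t D h4)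
  have e4 : w (NN n + p) = w p + NN n := by
    have := hC.2 p
    rw [add_comm] at this
    exact this
  rw [e4, hC.1] at e1
  have e6 : w p + NN n - -p = w p + NN n + p := by ring
  have e7 : -w p - -p = -w p + p := by ring
  rw [e6, e7] at e1
  have hN := NN_eq n
  refine ⟨t, h1, h2, by omega, ?_, by omega⟩
  rw [isB_iff] at hw ⊢
  refine ⟨C_mul hC D.hC, ?_⟩
  rw [F_diff1 D hp.2 (Or.inl rfl) le_rfl, h4, hC.1, e4]
  have e5 : (-(w p + NN n)) / NN n = -w p / NN n - 1 := by
    have := fl_add (n := n) (-w p) (-1)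
    have e : -w p + -1 * NN n = -(w p + NN n) := by ring
    rw [e] at this
    rw [this]
    ring
  rw [e5, fl_neg (w_ne hC hp)]
  have e : F n w n - w p / NN n + (-1 - w p / NN n - 1) =
    F n w n - 2 * (1 + w p / NN n) := by ring
  rw [e]
  exact hw.2.sub (even_two_mul _)

/-- the chain structure. -/
structure Chain (n : ℕ) (w : Perm ℤ) (d a θ x l : ℤ) : Prop where
  A1 : ∀ m, 1 ≤ m → m ≤ x → m ≠ a → |w m| ≤ x ∧ |w m| ≠ l
  A2 : ∀ m, l < m → m ≤ x → w m = m
  A3 : Even (F n w x - w a / NN n - θ)
  A4 : d ≤ l ∧ l ≤ x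
  A5 : w l < l

variable {d θ x l u : ℤ}

theorem chain_surj (hC : IsC n w) (ha : 1 ≤ a) (had : a ≤ d) (H : Chain n w d a θ x l)
    {v : ℤ} (h1 : 1 ≤ v) (h2 : v ≤ x) (h3 : v ≠ l) :
    ∃ m, 1 ≤ m ∧ m ≤ x ∧ m ≠ a ∧ |w m| = v := by
  have h4 := H.A4
  obtain ⟨m, hm, he⟩ := inj_surj hC (s := (Icc 1 x).erase a) (t := (Icc 1 x).erase l) (v := v)
    (by
      rw [Finset.card_erase_of_mem (Finset.mem_Icc.2 ⟨by omega, by omega⟩),
        Finset.card_erase_of_mem (Finset.mem_Icc.2 ⟨by omega, by omega⟩)])
    (by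
      intro m hm
      rw [Finset.mem_erase, Finset.mem_Icc] at hm ⊢
      obtain ⟨b1, b2⟩ := H.A1 m hm.2.1 hm.2.2 hm.1
      have := abs_pos.2 (w_ne_zero hC (m := m) (by omega))
      exact ⟨b2, by omega, b1⟩)
    (by
      intro m hm
      rw [Finset.mem_erase, Finset.mem_Icc] at hm
      exact hm.2.1)
    (by
      rw [Finset.mem_erase, Finset.mem_Icc]
      exact ⟨h3, h1, h2⟩)
  rw [Finset.mem_erase, Finset.mem_Icc] at hm
  exact ⟨m, hm.2.1, hm.2.2, hm.1, he⟩

theorem chain_le (hC : IsC n w) (hd : 1 ≤ d) (H : Chain n w d a θ x l) {c m : ℤ}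
    (h1 : l ≤ c) (h2 : c ≤ x) (hm1 : 1 ≤ m) (hm2 : m ≤ c) (hma : m ≠ a) : |w m| ≤ c := by
  by_contra h
  have h4 := H.A4
  have h3 := (H.A1 m hm1 (by omega) hma).1
  have h5 := H.A2 (|w m|) (by omega) h3
  have h6 : |w (|w m|)| = |w m| := by rw [h5, abs_abs]
  have h7 := abs_inj hC (by omega) hm1 h6
  omega

theorem chain_F (hd : 1 ≤ d) (hx : x ≤ n) (H : Chain n w d a θ x l) {c : ℤ}
    (h1 : l ≤ c) (h2 : c ≤ x) : F n w x = F n w c := by
  have h4 := H.A4
  exact F_fixed w (by omega) h2 hx (fun m hm1 hm2 => H.A2 m (by omega) hm2)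

theorem chain_succ (hC : IsC n w) (ha : 1 ≤ a) (had : a ≤ d) (H : Chain n w d a θ x l)
    (hx : x + 1 ≤ n) (h1 : 0 ≤ w (x + 1)) (h2 : w (x + 1) ≤ x + 1) :
    ∃ l', Chain n w d a θ (x + 1) l' := by
  have h4 := H.A4
  have hN := NN_eq n
  have h0 := w_ne_zero hC (m := x + 1) (by omega)
  have hF : F n w (x + 1) = F n w x := by
    rw [F_succ w (by omega), fl_zero h1 (by omega), add_zero]
  rcases eq_or_lt_of_le h2 with h5 | h5
  · refine ⟨l, ?_, ?_, ?_, ⟨h4.1, by omega⟩, H.A5⟩
    · intro m hm1 hm2 hma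
      rcases eq_or_lt_of_le hm2 with h6 | h6
      · rw [h6, h5, abs_of_pos (by omega)]
        omega
      · obtain ⟨b1, b2⟩ := H.A1 m hm1 (by omega) hma
        exact ⟨by omega, b2⟩
    · intro m hm1 hm2
      rcases eq_or_lt_of_le hm2 with h6 | h6
      · rw [h6, h5]
      · exact H.A2 m hm1 (by omega)
    · rw [hF]
      exact H.A3
  · have h6 : w (x + 1) = l := by
      by_contra h6
      obtain ⟨m, b1, b2, b3, b4⟩ := chain_surj hC ha had H (v := w (x + 1)) (by omega)
        (by omega) h6
      have h7 : |w m| = |w (x + 1)| := by rw [b4, abs_of_nonneg h1]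
      have := abs_inj hC b1 (by omega) h7
      omega
    refine ⟨x + 1, ?_, ?_, ?_, ⟨by omega, le_rfl⟩, h5⟩
    · intro m hm1 hm2 hma
      rcases eq_or_lt_of_le hm2 with h7 | h7
      · rw [h7, abs_of_nonneg h1]
        omega
      · obtain ⟨b1, b2⟩ := H.A1 m hm1 (by omega) hma
        omega
    · intro m hm1 hm2
      omega
    · rw [hF]
      exact H.A3

theorem chain_exists (hC : IsC n w) (ha : 1 ≤ a) (had : a ≤ d) (H : Chain n w d a θ d d)
    {x : ℤ} (hdx : d ≤ x) : x ≤ n → (∀ y, d < y → y ≤ x → 0 ≤ w y ∧ w y ≤ y) →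
    ∃ l, Chain n w d a θ x l := by
  induction x, hdx using Int.leInduction with
  | base =>
    intro _ _
    exact ⟨d, H⟩
  | succ x hdx ih =>
    intro hx hy
    obtain ⟨l, hl⟩ := ih (by omega) (fun y h1 h2 => hy y h1 (by omega))
    obtain ⟨b1, b2⟩ := hy (x + 1) (by omega) le_rfl
    exact chain_succ hC ha had hl hx b1 b2

/-- the last part: there is no negative entry after `d`. -/
theorem step_none (hw : IsB n w) (hun : |u| ≤ n) (hd : 1 ≤ d) (hwu : d ≤ w u)
    (hcase : (0 < u ∧ u < d ∧ a = u ∧ θ = 1) ∨ (u < 0 ∧ d = -u ∧ a = -u ∧ θ = 0))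
    (hdn : d ≤ n) (hfix : ∀ x, u < x → x < d → w x = x)
    (H : Chain n w d a θ n l) : Step n w := by
  have hC := hw.1
  have hFn := (isB_iff.1 hw).2
  have hN := NN_eq n
  have ha : 1 ≤ a := by omega
  have had : a ≤ d := by omega
  have hA4 := H.A4
  have hu0 : u ≠ 0 := by omega
  -- the class of `w u`
  have hcls : ∃ k : ℤ, w u = l + k * NN n ∨ w u = -l + k * NN n := by
    rcases rep n (w u) with ⟨k, hk⟩ | ⟨v, k, hv1, hv2, hk⟩
    · exfalso
      have e1 := C_mult hC k
      rw [← hk] at e1
      have e2 := w.injective e1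
      have e3 : w u = w (k * (n + 1)) := by rw [C_mult hC, hk]
      have e4 := w.injective e3
      rw [abs_le] at hun
      have e5 : k = 0 := by
        by_contra hk0
        rcases lt_or_gt_of_ne hk0 with h | h
        · have : k * (n + 1) ≤ (-1) * ((n : ℤ) + 1) :=
            mul_le_mul_of_nonneg_right (by omega) (by omega)
          omega
        · have : 1 * ((n : ℤ) + 1) ≤ k * (n + 1) :=
            mul_le_mul_of_nonneg_right (by omega) (by omega)
          omega
      rw [e5, zero_mul] at e4
      exact hu0 e4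
    · have hvl : v = l := by
        by_contra hvl
        obtain ⟨m, b1, b2, b3, b4⟩ := chain_surj hC ha had H hv1 hv2 hvl
        have hum : ∃ k', u = m + k' * NN n ∨ u = -m + k' * NN n := by
          rcases abs_cases (w m) with ⟨c1, -⟩ | ⟨c1, -⟩ <;> rcases hk with hk | hk
          · refine ⟨k, Or.inl (w.injective ?_)⟩
            rw [C_add hC, hk, ← b4, c1]
          · refine ⟨k, Or.inr (w.injective ?_)⟩
            rw [C_neg_add hC, hk, ← b4, c1]
          · refine ⟨k, Or.inr (w.injective ?_)⟩
            rw [C_neg_add hC, hk, ← b4, c1]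
          · refine ⟨k, Or.inl (w.injective ?_)⟩
            rw [C_add hC, hk, ← b4, c1, neg_neg]
        obtain ⟨k', hk'⟩ := hum
        rcases small_rep (n := n) hu0 hun ⟨b1, b2⟩ hk' with h | h
        · rcases hcase with h' | h' <;> omega
        · rcases hcase with h' | h' <;> omega
      rw [hvl] at hk
      exact ⟨k, hk⟩
  obtain ⟨k, hk⟩ := hcls
  have hpar : Even (w a / NN n + θ) := by
    have h1 := hFn.sub H.A3
    have e : F n w n - (F n w n - w a / NN n - θ) = w a / NN n + θ := by ring
    rwa [e] at h1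
  rcases hcase with ⟨c1, c2, c3, c4⟩ | ⟨c1, c2, c3, c4⟩
  · subst c3
    subst c4
    have hbig : NN n + l ≤ w a := by
      rcases hk with hk | hk
      · rw [hk, fl_add, fl_zero (by omega) (by omega)] at hpar
        have h1 : 0 ≤ k := by
          by_contra h
          have : k * NN n ≤ (-1) * NN n := mul_le_mul_of_nonneg_right (by omega) (by omega)
          omega
        have h2 : k ≠ 0 := by
          rintro rfl
          exact absurd hpar (by decide)
        have : 1 * NN n ≤ k * NN n := mul_le_mul_of_nonneg_right (by omega) (by omega)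
        omega
      · rw [hk, fl_add, fl_m1 (by omega) (by omega)] at hpar
        have h1 : 1 ≤ k := by
          by_contra h
          have : k * NN n ≤ 0 * NN n := mul_le_mul_of_nonneg_right (by omega) (by omega)
          omega
        have h2 : k ≠ 1 := by
          rintro rfl
          exact absurd hpar (by decide)
        have : 2 * NN n ≤ k * NN n := mul_le_mul_of_nonneg_right (by omega) (by omega)
        omega
    apply use_mid hw ⟨ha, by omega⟩
    · rw [abs_of_nonpos (by omega), abs_of_nonneg (by omega)]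
      omega
    · intro t D ht _ c hc
      by_cases hca : c < a
      · exact bad0 D hca hca hc
      · exfalso
        rw [mem_Bad] at hc
        obtain ⟨h1, h2, h3⟩ := hc
        have h4 := h2 a ha (by omega)
        have e4 : w (NN n - a) = -w a + NN n := by
          have := C_neg_add hC a 1
          rw [one_mul] at this
          rw [← this]
          congr 1
          ring
        rw [Perm.mul_apply, ht, e4] at h4
        have h5 : -w a + NN n = l ∨ -w a + NN n = -l := by
          apply small_rep (n := n) (k := 1 - k) (by omega) (by omega) ⟨by omega, by omega⟩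
          rcases hk with hk | hk
          · right; rw [hk]; ring
          · left; rw [hk]; ring
        have h6 : -w a + NN n = -l := by
          rcases h5 with h5 | h5
          · omega
          · exact h5
        rw [h6, abs_neg, abs_of_pos (by omega)] at h4
        rw [F_diff1 D (by omega) (Or.inl rfl) (by omega), ht, e4, h6,
          fl_m1 (x := -l) (by omega) (by omega), ← chain_F hd le_rfl H h4 (by omega)] at h3
        have h7 := H.A3
        have e : F n w n - w a / NN n + -1 = F n w n - w a / NN n - 1 := by ring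
        rw [e] at h3
        exact (Int.not_even_iff_odd.2 h3) h7
  · subst c4
    have hwa : w a = -w u := by rw [c3, hC.1]
    have hbig : w a ≤ -(NN n + l) := by
      rcases hk with hk | hk
      · have e : w a = -l + (-k) * NN n := by rw [hwa, hk]; ring
        rw [e, fl_add, fl_m1 (by omega) (by omega)] at hpar
        have h1 : 0 ≤ k := by
          by_contra h
          have : k * NN n ≤ (-1) * NN n := mul_le_mul_of_nonneg_right (by omega) (by omega)
          omega
        have h2 : k ≠ 0 := by
          rintro rfl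
          exact absurd hpar (by decide)
        have : 1 * NN n ≤ k * NN n := mul_le_mul_of_nonneg_right (by omega) (by omega)
        omega
      · have e : w a = l + (-k) * NN n := by rw [hwa, hk]; ring
        rw [e, fl_add, fl_zero (by omega) (by omega)] at hpar
        have h1 : 1 ≤ k := by
          by_contra h
          have : k * NN n ≤ 0 * NN n := mul_le_mul_of_nonneg_right (by omega) (by omega)
          omega
        have h2 : k ≠ 1 := by
          rintro rfl
          exact absurd hpar (by decide)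
        have : 2 * NN n ≤ k * NN n := mul_le_mul_of_nonneg_right (by omega) (by omega)
        omega
    apply use_mid' hw ⟨ha, by omega⟩
    · rw [abs_of_nonpos (by omega), abs_of_nonneg (by omega)]
      omega
    · intro t D ht c hc
      by_cases hca : c < a
      · exact bad0 D hca hca hc
      · exfalso
        rw [mem_Bad] at hc
        obtain ⟨h1, h2, h3⟩ := hc
        have h4 := h2 a ha (by omega)
        have e4 : w (-(NN n + a)) = -(w a + NN n) := by
          rw [hC.1, add_comm, hC.2]
        rw [Perm.mul_apply, ht, e4] at h4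
        have h5 : -(w a + NN n) = l ∨ -(w a + NN n) = -l := by
          apply small_rep (n := n) (k := k - 1) (by omega) (by omega) ⟨by omega, by omega⟩
          rcases hk with hk | hk
          · left; rw [hwa, hk]; ring
          · right; rw [hwa, hk]; ring
        have h6 : -(w a + NN n) = l := by
          rcases h5 with h5 | h5
          · exact h5
          · omega
        rw [h6, abs_of_pos (by omega)] at h4
        rw [F_diff1 D (by omega) (Or.inl rfl) (by omega), ht, e4, h6,
          fl_zero (x := l) (by omega) (by omega), ← chain_F hd le_rfl H h4 (by omega)] at h3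
        have h7 := H.A3
        have e : F n w n - w a / NN n + 0 = F n w n - w a / NN n - 0 := by ring
        rw [e] at h3
        exact (Int.not_even_iff_odd.2 h3) h7

/-- there is a negative entry after `d`. -/
theorem step_some {β : ℤ} (hw : IsB n w) (hd : 1 ≤ d) (hwu : d ≤ w u)
    (hcase : (0 < u ∧ u < d ∧ a = u ∧ θ = 1) ∨ (u < 0 ∧ d = -u ∧ a = -u ∧ θ = 0))
    (hβd : d < β) (hβn : β ≤ n) (hβ : w β < 0)
    (H : Chain n w d a θ (β - 1) l) : Step n w := by
  have hC := hw.1
  have hN := NN_eq n
  have ha : 1 ≤ a := by omega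
  have had : a ≤ d := by omega
  have hA4 := H.A4
  have hA5 := H.A5
  have hwa : |w a| = w u := by
    rcases hcase with h | h
    · rw [h.2.2.1, abs_of_pos (by omega)]
    · rw [h.2.2.1, hC.1, abs_neg, abs_of_pos (by omega)]
  -- value of `w β`
  have hvβ : w β = -l ∨ w β ≤ -β := by
    by_contra hcon
    push Not at hcon
    obtain ⟨m, b1, b2, b3, b4⟩ := chain_surj hC ha had H (v := -w β) (by omega) (by omega)
      (by omega)
    have h7 : |w m| = |w β| := by rw [b4, abs_of_neg hβ]
    have := abs_inj hC b1 (by omega) h7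
    omega
  have hvu : w u = l ∨ β ≤ w u := by
    by_contra hcon
    push Not at hcon
    obtain ⟨m, b1, b2, b3, b4⟩ := chain_surj hC ha had H (v := w u) (by omega) (by omega)
      (by omega)
    rw [← hwa] at b4
    exact b3 (abs_inj hC b1 ha b4)
  rcases hvu with hvu | hvu
  · -- neutral swap
    have hvβ' : w β ≤ -β := by
      rcases hvβ with h | h
      · exfalso
        have h7 : |w a| = |w β| := by rw [hwa, hvu, h, abs_neg, abs_of_pos (by omega)]
        have := abs_inj hC ha (by omega) h7
        omega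
      · exact h
    apply use_pq hw (p := l) (q := β) (K := 2 * (β - l)) (by omega) (by omega) hβn
    · rw [abs_of_neg (by omega : w β - l < 0), abs_of_neg (by omega : w l - β < 0),
        abs_of_neg (by omega : w l - l < 0), abs_of_neg (by omega : w β - β < 0)]
      omega
    · intro t D
      have hsub1 : Ico l β ⊆ Bad n w := by
        intro c hc
        rw [Finset.mem_Ico] at hc
        rw [mem_Bad]
        refine ⟨by omega, ?_, ?_⟩
        · intro m hm1 hm2
          by_cases hma : m = a
          · rw [hma, hwa, hvu]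
            exact hc.1
          · exact chain_le hC hd H hc.1 (by omega) hm1 hm2 hma
        · have h1 := H.A3
          rw [chain_F hd (by omega) H hc.1 (by omega)] at h1
          rcases hcase with h | h
          · have e : w a / NN n = 0 := by
              rw [h.2.2.1, hvu, fl_zero (by omega) (by omega)]
            rw [e, h.2.2.2] at h1
            have e2 : F n w c = (F n w c - 0 - 1) + 1 := by ring
            rw [e2]
            exact h1.add_one
          · have e : w a / NN n = -1 := by
              rw [h.2.2.1, hC.1, hvu, fl_m1 (by omega) (by omega)]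
            rw [e, h.2.2.2] at h1
            have e2 : F n w c = (F n w c - -1 - 0) - 1 := by ring
            rw [e2]
            exact h1.sub_odd odd_one
      have hsub2 : Bad n (w * t) ⊆ Bad n w \ Ico l β := by
        intro c hc
        rw [Finset.mem_sdiff, Finset.mem_Ico]
        by_cases h1 : c < l
        · exact ⟨bad0 D h1 (by omega) hc, by omega⟩
        · by_cases h2 : β ≤ c
          · exact ⟨bad2 D (by omega) h2 hc, by omega⟩
          · exfalso
            rw [mem_Bad] at hc
            have h3 := hc.2.1 l (by omega) (by omega)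
            rw [Perm.mul_apply, D.ti, abs_of_neg hβ] at h3
            omega
      have h1 := Finset.card_le_card hsub2
      have h2 := Finset.card_sdiff_add_card_eq_card hsub1
      rw [Int.card_Ico] at h2
      omega
  · rcases hcase with h | h
    · apply use_pq hw (p := u) (q := β) (K := 0) (by omega) (by omega) hβn
      · rw [abs_of_neg (by omega : w β - u < 0), abs_of_nonneg (by omega : 0 ≤ w u - β),
          abs_of_nonneg (by omega : 0 ≤ w u - u), abs_of_neg (by omega : w β - β < 0)]
        omega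
      · intro t D
        have hsub : Bad n (w * t) ⊆ Bad n w := by
          intro c hc
          by_cases h1 : c < u
          · exact bad0 D h1 (by omega) hc
          · by_cases h2 : β ≤ c
            · exact bad2 D (by omega) h2 hc
            · exfalso
              rw [mem_Bad] at hc
              obtain ⟨g1, g2, g3⟩ := hc
              have h3 := g2 u (by omega) (by omega)
              rw [Perm.mul_apply, D.ti, abs_of_neg hβ] at h3
              have h4 : w β = -l := by
                rcases hvβ with h4 | h4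
                · exact h4
                · omega
              rw [F_diff1 D (by omega) (Or.inr (by omega)) (by omega), D.ti, h4,
                fl_m1 (x := -l) (by omega) (by omega),
                ← chain_F hd (by omega) H (by omega : l ≤ c) (by omega)] at g3
              have h7 := H.A3
              rw [h.2.2.1, h.2.2.2] at h7
              have e : F n w (β - 1) - w u / NN n + -1 = F n w (β - 1) - w u / NN n - 1 := by ring
              rw [e] at g3
              exact (Int.not_even_iff_odd.2 g3) h7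
        have := Finset.card_le_card hsub
        omega
    · have hwa' : w a = -w u := by rw [h.2.2.1, hC.1]
      apply use_npq hw (p := a) (q := β) (by omega) (by omega) hβn
      · rw [abs_of_nonpos (by omega : w β + a ≤ 0), abs_of_nonneg (by omega : 0 ≤ -w a - β),
          abs_of_nonneg (by omega : 0 ≤ -w a + a), abs_of_neg (by omega : w β - β < 0)]
        omega
      · intro t D htp htq c hc
        by_cases h1 : c < a
        · exact bad0 D h1 (by omega) hc
        · by_cases h2 : β ≤ c
          · exact bad2' D hC (by omega) htp htq (by omega) h2 hc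
          · exfalso
            rw [mem_Bad] at hc
            obtain ⟨g1, g2, g3⟩ := hc
            have h3 := g2 a (by omega) (by omega)
            rw [Perm.mul_apply, htp, hC.1, abs_neg, abs_of_neg hβ] at h3
            have h4 : w β = -l := by
              rcases hvβ with h4 | h4
              · exact h4
              · omega
            rw [F_diff1 D (by omega) (Or.inr (by omega)) (by omega), htp, hC.1, h4, neg_neg,
              fl_zero (x := l) (by omega) (by omega),
              ← chain_F hd (by omega) H (by omega : l ≤ c) (by omega)] at g3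
            have h7 := H.A3
            rw [h.2.2.2] at h7
            have e : F n w (β - 1) - w a / NN n + 0 = F n w (β - 1) - w a / NN n - 0 := by ring
            rw [e] at g3
            exact (Int.not_even_iff_odd.2 g3) h7

theorem step_chain (hw : IsB n w) (hun : |u| ≤ n) (hd : 1 ≤ d) (hwu : d ≤ w u)
    (hcase : (0 < u ∧ u < d ∧ a = u ∧ θ = 1) ∨ (u < 0 ∧ d = -u ∧ a = -u ∧ θ = 0))
    (hdn : d ≤ n) (hfix : ∀ x, u < x → x < d → w x = x)
    (hmax : ∀ x, u < x → x ≤ n → w x ≤ x)
    (H : Chain n w d a θ d d) : Step n w := by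
  have hC := hw.1
  have ha : 1 ≤ a := by omega
  have had : a ≤ d := by omega
  have hud : u < d := by omega
  by_cases hβ : ∃ y, d < y ∧ y ≤ n ∧ w y < 0
  · -- the smallest such
    have hne : ((Icc (d + 1) (n : ℤ)).filter (fun y => w y < 0)).Nonempty := by
      obtain ⟨y, h1, h2, h3⟩ := hβ
      exact ⟨y, by rw [Finset.mem_filter, Finset.mem_Icc]; exact ⟨⟨by omega, h2⟩, h3⟩⟩
    obtain ⟨β, h1, h2⟩ : ∃ β ∈ (Icc (d + 1) (n : ℤ)).filter (fun y => w y < 0),
        ∀ y ∈ (Icc (d + 1) (n : ℤ)).filter (fun y => w y < 0), β ≤ y :=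
      ⟨_, Finset.min'_mem _ hne, fun y hy => Finset.min'_le _ y hy⟩
    rw [Finset.mem_filter, Finset.mem_Icc] at h1
    obtain ⟨l, hl⟩ := chain_exists hC ha had H (x := β - 1) (by omega) (by omega) (by
      intro y hy1 hy2
      refine ⟨?_, hmax y (by omega) (by omega)⟩
      by_contra h3
      have := h2 y (by
        rw [Finset.mem_filter, Finset.mem_Icc]
        exact ⟨⟨by omega, by omega⟩, by omega⟩)
      omega)
    exact step_some hw hd hwu hcase (by omega) h1.1.2 h1.2 hl
  · push Not at hβ
    obtain ⟨l, hl⟩ := chain_exists hC ha had H (x := n) hdn le_rfl (by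
      intro y hy1 hy2
      exact ⟨hβ y hy1 hy2, hmax y (by omega) hy2⟩)
    exact step_none hw hun hd hwu hcase hdn hfix hl

theorem F_zero_fixed (hC : IsC n w) {y : ℤ} (hy0 : 0 ≤ y) (hy : y ≤ n)
    (h : ∀ m, 0 < m → m ≤ y → w m = m) : F n w y = 0 := by
  rw [F_fixed w le_rfl hy0 hy h]
  unfold F
  simp

theorem step (hw : IsB n w) (hne : w ≠ 1) : Step n w := by
  have hC := hw.1
  have hN := NN_eq n
  -- a moved position in the window
  have hex : ∃ p : ℤ, 1 ≤ p ∧ p ≤ n ∧ w p ≠ p := by
    by_contra hcon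
    push Not at hcon
    apply hne
    ext x
    rw [Perm.one_apply]
    rcases rep n x with ⟨k, rfl⟩ | ⟨p, k, hp1, hp2, rfl | rfl⟩
    · exact C_mult hC k
    · rw [C_add hC, hcon p hp1 hp2]
    · rw [C_neg_add hC, hcon p hp1 hp2]
  have hnonempty : ((Icc (-(n : ℤ)) n).filter (fun x => x < w x)).Nonempty := by
    obtain ⟨p, h1, h2, h3⟩ := hex
    rcases lt_or_gt_of_ne h3 with h | h
    · refine ⟨-p, ?_⟩
      rw [Finset.mem_filter, Finset.mem_Icc, hC.1]
      omega
    · refine ⟨p, ?_⟩
      rw [Finset.mem_filter, Finset.mem_Icc]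
      omega
  obtain ⟨u, hu1, hu2⟩ : ∃ u ∈ (Icc (-(n : ℤ)) n).filter (fun x => x < w x),
      ∀ y ∈ (Icc (-(n : ℤ)) n).filter (fun x => x < w x), y ≤ u :=
    ⟨_, Finset.max'_mem _ hnonempty, fun y hy => Finset.le_max' _ y hy⟩
  rw [Finset.mem_filter, Finset.mem_Icc] at hu1
  obtain ⟨⟨hu3, hu4⟩, hu5⟩ := hu1
  have hmax : ∀ x, u < x → x ≤ n → w x ≤ x := by
    intro x h1 h2
    by_contra h3
    have := hu2 x (by rw [Finset.mem_filter, Finset.mem_Icc]; omega)
    omega
  have hu0 : u ≠ 0 := by
    rintro rfl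
    rw [C_zero hC] at hu5
    omega
  have hun : |u| ≤ n := abs_le.2 ⟨hu3, hu4⟩
  by_cases h0 : ∀ x, u < x → x ≤ n → w x = x
  · -- nothing moves after `u`
    have hupos : 0 < u := by
      by_contra h
      have h1 := h0 (-u) (by omega) (by omega)
      rw [hC.1] at h1
      omega
    have hwu : NN n - u ≤ w u := by
      by_contra h
      have hfx : w (w u) = w u := by
        by_cases h1 : w u ≤ n
        · exact h0 _ hu5 h1
        · by_cases h2 : w u = n + 1
          · rw [h2]; exact C_mid hC
          · have h3 := h0 (NN n - w u) (by omega) (by omega)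
            have h4 := C_neg_add hC (w u) 1
            rw [one_mul] at h4
            have h5 : -w u + NN n = NN n - w u := by ring
            rw [h5, h3] at h4
            omega
      have := w.injective hfx
      omega
    apply use_mid hw ⟨by omega, hu4⟩
    · rw [abs_of_nonpos (by omega), abs_of_nonneg (by omega)]
      omega
    · intro t D ht hE c hc
      by_cases hca : c < u
      · exact bad0 D hca hca hc
      · exfalso
        rw [mem_Bad] at hc
        obtain ⟨h1, h2, h3⟩ := hc
        rw [F_fixed (w * t) (x := c) (by omega) (by omega) le_rfl] at hE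
        · exact (Int.not_even_iff_odd.2 h3) hE
        · intro m hm1 hm2
          rw [Perm.mul_apply, D.fixw ⟨by omega, hm2⟩ (by omega) (by omega)]
          exact h0 m (by omega) hm2
  · push Not at h0
    have hne2 : ((Icc (u + 1) (n : ℤ)).filter (fun y => w y ≠ y)).Nonempty := by
      obtain ⟨y, h1, h2, h3⟩ := h0
      exact ⟨y, by rw [Finset.mem_filter, Finset.mem_Icc]; exact ⟨⟨by omega, h2⟩, h3⟩⟩
    obtain ⟨d, hd1, hd2⟩ : ∃ d ∈ (Icc (u + 1) (n : ℤ)).filter (fun y => w y ≠ y),
        ∀ y ∈ (Icc (u + 1) (n : ℤ)).filter (fun y => w y ≠ y), d ≤ y :=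
      ⟨_, Finset.min'_mem _ hne2, fun y hy => Finset.min'_le _ y hy⟩
    rw [Finset.mem_filter, Finset.mem_Icc] at hd1
    obtain ⟨⟨hd3, hd4⟩, hd5⟩ := hd1
    have hfix : ∀ x, u < x → x < d → w x = x := by
      intro x h1 h2
      by_contra h3
      have := hd2 x (by rw [Finset.mem_filter, Finset.mem_Icc]; exact ⟨by omega, h3⟩)
      omega
    have hwd : w d < d := lt_of_le_of_ne (hmax d (by omega) hd4) hd5
    have hwud : d ≤ w u := by
      by_contra h
      have := w.injective (hfix (w u) hu5 (by omega))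
      omega
    have hwdu : w d ≤ u := by
      by_contra h
      have := w.injective (hfix (w d) (by omega) hwd)
      omega
    rcases lt_or_gt_of_ne hu0 with hneg | hpos
    · -- `u` is negative
      have hdu : d = -u := by
        have h1 : d ≤ -u := by
          by_contra h1
          have h2 := hfix (-u) (by omega) (by omega)
          rw [hC.1] at h2
          omega
        by_contra h2
        have h3 := hfix (-d) (by omega)
        by_cases h4 : -d < d
        · have h5 := h3 h4
          rw [hC.1] at h5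
          omega
        · have h5 := hmax (-d) (by omega) (by omega)
          rw [hC.1] at h5
          omega
      apply step_chain hw hun (d := d) (a := -u) (θ := 0) (by omega) (by omega)
        (Or.inr ⟨hneg, hdu, rfl, rfl⟩) hd4 hfix hmax
      have hF0 : F n w (d - 1) = 0 :=
        F_zero_fixed hC (by omega) (by omega) (fun m h1 h2 => hfix m (by omega) (by omega))
      refine ⟨?_, ?_, ?_, ⟨le_rfl, le_rfl⟩, hwd⟩
      · intro m hm1 hm2 hma
        rw [hfix m (by omega) (by omega), abs_of_pos (by omega)]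
        omega
      · intro m h1 h2
        omega
      · have h1 : F n w d = F n w (d - 1) + w d / NN n := by
          have := F_succ (n := n) w (x := d - 1) (by omega)
          rwa [sub_add_cancel] at this
        rw [h1, hF0, ← hdu]
        have e : 0 + w d / NN n - w d / NN n - 0 = 0 := by ring
        rw [e]
        exact Even.zero
    · by_cases hObs : (∀ m, 1 ≤ m → m < u → |w m| ≤ u) ∧ |w d| ≤ u ∧
        Odd (F n w (u - 1) + w d / NN n)
      · obtain ⟨o1, o2, o3⟩ := hObs
        apply step_chain hw hun (d := d) (a := u) (θ := 1) (by omega) (by omega)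
          (Or.inl ⟨hpos, by omega, rfl, rfl⟩) hd4 hfix hmax
        refine ⟨?_, ?_, ?_, ⟨le_rfl, le_rfl⟩, hwd⟩
        · intro m hm1 hm2 hma
          rcases lt_trichotomy m u with h | h | h
          · have := o1 m hm1 h
            omega
          · exact absurd h hma
          · rcases eq_or_lt_of_le hm2 with h' | h'
            · rw [h']
              omega
            · rw [hfix m h h', abs_of_pos (by omega)]
              omega
        · intro m h1 h2
          omega
        · have h1 : F n w d = F n w (d - 1) + w d / NN n := by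
            have := F_succ (n := n) w (x := d - 1) (by omega)
            rwa [sub_add_cancel] at this
          have h2 : F n w (d - 1) = F n w u :=
            F_fixed w (by omega) (by omega) (by omega)
              (fun m h1 h2 => hfix m (by omega) (by omega))
          have h3 : F n w u = F n w (u - 1) + w u / NN n := by
            have := F_succ (n := n) w (x := u - 1) (by omega)
            rwa [sub_add_cancel] at this
          rw [h1, h2, h3]
          have e : F n w (u - 1) + w u / NN n + w d / NN n - w u / NN n - 1 =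
            F n w (u - 1) + w d / NN n - 1 := by ring
          rw [e]
          exact o3.sub_odd odd_one
      · apply use_pq hw (p := u) (q := d) (K := 0) (by omega) (by omega) hd4
        · rw [abs_of_nonpos (by omega : w d - u ≤ 0), abs_of_nonneg (by omega : 0 ≤ w u - d),
            abs_of_nonneg (by omega : 0 ≤ w u - u), abs_of_neg (by omega : w d - d < 0)]
          omega
        · intro t D
          have hsub : Bad n (w * t) ⊆ Bad n w := by
            intro c hc
            by_cases h1 : c < u
            · exact bad0 D h1 (by omega) hc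
            · by_cases h2 : d ≤ c
              · exact bad2 D (by omega) h2 hc
              · exfalso
                apply hObs
                rw [mem_Bad] at hc
                obtain ⟨g1, g2, g3⟩ := hc
                have key : ∀ m, 1 ≤ m → (m < u ∨ m = d) → |w m| ≤ c → |w m| ≤ u := by
                  intro m hm1 hm2 h3
                  by_contra h4
                  have h5 := hfix (|w m|) (by omega) (by omega)
                  have h6 : |w (|w m|)| = |w m| := by rw [h5, abs_abs]
                  have h7 := abs_inj hC (by omega) hm1 h6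
                  omega
                refine ⟨?_, ?_, ?_⟩
                · intro m hm1 hm2
                  apply key m hm1 (Or.inl hm2)
                  have := g2 m hm1 (by omega)
                  rwa [Perm.mul_apply, D.fixw ⟨hm1, by omega⟩ (by omega) (by omega)] at this
                · apply key d (by omega) (Or.inr rfl)
                  have := g2 u (by omega) (by omega)
                  rwa [Perm.mul_apply, D.ti] at this
                · rw [F_diff1 D (by omega) (Or.inr (by omega)) (by omega), D.ti] at g3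
                  have h2 : F n w c = F n w u :=
                    F_fixed w (by omega) (by omega) (by omega)
                      (fun m h1 h2 => hfix m (by omega) (by omega))
                  have h3 : F n w u = F n w (u - 1) + w u / NN n := by
                    have := F_succ (n := n) w (x := u - 1) (by omega)
                    rwa [sub_add_cancel] at this
                  rw [h2, h3] at g3
                  have e : F n w (u - 1) + w u / NN n - w u / NN n + w d / NN n =
                    F n w (u - 1) + w d / NN n := by ring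
                  rwa [e] at g3
          have := Finset.card_le_card hsub
          omega

theorem tvd_nonneg (w : Perm ℤ) : 0 ≤ tvd n w := by
  unfold tvd
  exact Finset.sum_nonneg fun _ _ => abs_nonneg _

theorem upper_list : ∀ (N : ℕ) (w : Perm ℤ), IsB n w →
    tvd n w + 2 * (Bad n w).card ≤ N →
    ∃ l : List (Perm ℤ), (∀ t ∈ l, IsRefl n t) ∧ l.prod = w ∧
      (l.map (tvd n)).sum ≤ tvd n w + 2 * (Bad n w).card := by
  intro N
  induction N with
  | zero =>
    intro w hw h
    by_cases h1 : w = 1
    · refine ⟨[], by simp, by simp [h1], ?_⟩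
      have := tvd_nonneg (n := n) w
      simp only [List.map_nil, List.sum_nil]
      omega
    · exfalso
      obtain ⟨t, -, -, h2, -, h3⟩ := step hw h1
      have := tvd_nonneg (n := n) (w * t)
      omega
  | succ N ih =>
    intro w hw h
    by_cases h1 : w = 1
    · refine ⟨[], by simp, by simp [h1], ?_⟩
      have := tvd_nonneg (n := n) w
      simp only [List.map_nil, List.sum_nil]
      omega
    · obtain ⟨t, h2, h3, h4, h5, h6⟩ := step hw h1
      obtain ⟨l, g1, g2, g3⟩ := ih (w * t) h5 (by push_cast at h; omega)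
      refine ⟨l ++ [t], ?_, ?_, ?_⟩
      · intro x hx
        rw [List.mem_append, List.mem_singleton] at hx
        rcases hx with hx | hx
        · exact g1 x hx
        · rw [hx]; exact h2
      · rw [List.prod_append, List.prod_singleton, g2, mul_assoc, h3, mul_one]
      · rw [List.map_append, List.sum_append, List.map_singleton, List.sum_singleton]
        linarith

end upper

/-- **MP_0e82d3_co, Q1.** For every `n` and every `w` in the group of type B, the minimum of the
costs of the factorizations of `w` into transpositions of the group is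
`tvd(w) / 2 + blC(w) - blB(w)`. -/
theorem result (n : ℕ) (w : Perm ℤ) (hw : IsB n w) :
    IsLeast (costs n w) ((tvd n w : ℚ) / 2 + blC n w - blB n w) := by
  have hcost : ∀ l : List (Perm ℤ), (l.map (cost n)).sum = (((l.map (tvd n)).sum : ℤ) : ℚ) / 2 := by
    intro l
    induction l with
    | nil => simp
    | cons a l ih =>
      rw [List.map_cons, List.sum_cons, ih, List.map_cons, List.sum_cons]
      unfold cost
      push_cast
      ring
  have hbl := bl_eq hw.1
  have hval : (tvd n w : ℚ) / 2 + blC n w - blB n w =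
      ((tvd n w + 2 * (Bad n w).card : ℤ) : ℚ) / 2 := by
    have : ((blC n w : ℤ) : ℚ) - ((blB n w : ℤ) : ℚ) = (((Bad n w).card : ℤ) : ℚ) := by
      rw [← hbl]
      push_cast
      ring
    push_cast at this ⊢
    linarith
  rw [hval]
  constructor
  · obtain ⟨l, h1, h2, h3⟩ := upper_list (n := n) (tvd n w + 2 * (Bad n w).card).toNat w hw
      (by omega)
    obtain ⟨-, h4⟩ := lower_list (n := n) l h1
    rw [h2] at h4
    refine ⟨l, h1, h2, ?_⟩
    rw [hcost, le_antisymm h3 h4]
  · rintro c ⟨l, h1, h2, rfl⟩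
    obtain ⟨-, h4⟩ := lower_list (n := n) l h1
    rw [h2] at h4
    rw [hcost]
    apply div_le_div_of_nonneg_right _ (by norm_num)
    exact_mod_cast h4

end Pool.Agent.Results.MP_0e82d3_co.AffineCost
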